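import Mathlib.Computability.TuringMachine.Computable
import Mathlib.Data.Real.Basic
import Mathlib.LinearAlgebra.LinearIndependent.Defs
import Mathlib.LinearAlgebra.Matrix.Defs

/-!
# Independence of incidence structures, the class NP and polynomial-time reductions
-/

namespace Pool.Agent.IncInd

open Turing

/-- Points and lines are named by binary strings. -/
abbrev Name : Type := List Bool

/-- An explicit listing of the points, the lines and the incidences of an incidence structure. -/
structure Inc : Type where
  pts : List Name
  lns : List Name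
  inc : List (Name × Name)

/-- The listing is free of repetitions, and every incidence consists of a point and a line. -/
def Inc.Valid (S : Inc) : Prop :=
  S.pts.Nodup ∧ S.lns.Nodup ∧ S.inc.Nodup ∧ ∀ e ∈ S.inc, e.1 ∈ S.pts ∧ e.2 ∈ S.lns

/-- `(x i, y i)` is the point `i`, and `A j * X + Y + C j = 0` is the line `j`; all incidences
hold. -/
def Inc.Realizes (S : Inc) (x y A C : Name → ℝ) : Prop :=
  ∀ e ∈ S.inc, A e.2 * x e.1 + y e.1 + C e.2 = 0

/-- The points are not all collinear and the lines are not all concurrent. -/
def Inc.Nondegenerate (S : Inc) (x y A C : Name → ℝ) : Prop :=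
  (¬ ∃ a b c : ℝ, (a ≠ 0 ∨ b ≠ 0) ∧ ∀ i ∈ S.pts, a * x i + b * y i + c = 0) ∧
  (¬ ∃ u v : ℝ, ∀ j ∈ S.lns, A j * u + v + C j = 0)

/-- The coefficient matrix of the linearized incidence equations
`A^j u_i + U^j x_i + w_i + W^j = 0`. The columns are the unknowns `u_i`, `w_i` (for the points)
and `U^j`, `W^j` (for the lines), in this order. -/
def Inc.J (S : Inc) (x A : Name → ℝ) : Matrix {e // e ∈ S.inc}
    (({i // i ∈ S.pts} ⊕ {i // i ∈ S.pts}) ⊕ ({j // j ∈ S.lns} ⊕ {j // j ∈ S.lns})) ℝ :=
  fun e c => match c with
    | .inl (.inl i) => if i.1 = e.1.1 then A e.1.2 else 0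
    | .inl (.inr i) => if i.1 = e.1.1 then 1 else 0
    | .inr (.inl j) => if j.1 = e.1.2 then x e.1.1 else 0
    | .inr (.inr j) => if j.1 = e.1.2 then 1 else 0

/-- Independence of an incidence structure: the rows of the coefficient matrix are linearly
independent at some non-degenerate realization. -/
def Inc.Independent (S : Inc) : Prop :=
  ∃ x y A C : Name → ℝ, S.Realizes x y A C ∧ S.Nondegenerate x y A C ∧
    LinearIndependent ℝ (fun e => S.J x A e)

/-- The alphabet in which incidence structures are written. -/
inductive Sym : Type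
  | bit (b : Bool)
  | pt
  | ln
  | ic
  | sep
  deriving DecidableEq, Fintype

/-- The string of an incidence structure: every point is written as `pt` followed by its name,
every line as `ln` followed by its name, and every incidence as `ic` followed by the name of the
point, `sep` and the name of the line. -/
def Inc.code (S : Inc) : List Sym :=
  S.pts.flatMap (fun i => Sym.pt :: i.map Sym.bit) ++
    (S.lns.flatMap (fun j => Sym.ln :: j.map Sym.bit) ++
      S.inc.flatMap (fun e => Sym.ic :: (e.1.map Sym.bit ++ Sym.sep :: e.2.map Sym.bit)))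

/-- The decision problem: the strings of the independent incidence structures. -/
def INDEP : Set (List Sym) := {w | ∃ S : Inc, S.Valid ∧ w = S.code ∧ S.Independent}

/-- The class `P`: languages decided by a Turing machine in polynomial time. -/
def InP {Γ : Type} (L : Set (List Γ)) : Prop :=
  ∃ R : List Γ → Bool, Nonempty (TM2ComputableInPolyTime (fun x : List Γ => x)
    (fun b : Bool => [b]) R) ∧ ∀ x, x ∈ L ↔ R x = true

/-- The class `NP` (Arora and Barak, Definition 2.1): `L` is in `NP` if there are a polynomial `q`
and a predicate `R` on pairs `(x, u)`, decided by a Turing machine in time polynomial in the length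
of `(x, u)`, such that `x ∈ L` iff `R (x, u)` for some `u ∈ {0,1}^(q |x|)`. -/
def InNP {Γ : Type} (L : Set (List Γ)) : Prop :=
  ∃ (R : List Γ × List Bool → Bool) (q : Polynomial ℕ),
    Nonempty (TM2ComputableInPolyTime
      (fun t : List Γ × List Bool => (t.1.map Sum.inl ++ t.2.map Sum.inr : List (Γ ⊕ Bool)))
      (fun b : Bool => [b]) R) ∧
    ∀ x : List Γ, x ∈ L ↔ ∃ u : List Bool, u.length = q.eval x.length ∧ R (x, u) = true

/-- Polynomial-time many-one reducibility. -/
def PolyReduces {Γ Δ : Type} (A : Set (List Γ)) (B : Set (List Δ)) : Prop :=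
  ∃ f : List Γ → List Δ, Nonempty (TM2ComputableInPolyTime (fun x : List Γ => x)
    (fun y : List Δ => y) f) ∧ ∀ x, x ∈ A ↔ f x ∈ B

end Pool.Agent.IncInd
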