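import Pool.Agent.Lib_MP_a1eae6_lc.Hard
import Pool.Agent.Lib_MP_5661ce_lc.Defs

/-!
# The computation tableau of a verifier
-/

set_option linter.unusedSectionVars false
set_option linter.unusedVariables false

namespace Pool.Agent.IncInd

open Pool.Agent.PT81 Pool.Agent.IsoImp Turing Polynomial

noncomputable section

section formulas

variable {C K Sg : Type} [Fintype C] [DecidableEq C] [Fintype K] [DecidableEq K]
  [Fintype Sg] [DecidableEq Sg]

variable (M : UM C K Sg) (N : Kd C K Sg → ℕ → ℕ → IsoImp.Name)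

variable {Γ : Type} (k₀ : K) (inX : Γ → Sg) (inU : Bool → Sg) (c0 : C)

/-- Initial configuration: input `x`, bits `U`. -/
def initF (x : List Γ) (m W : ℕ) : Fml IsoImp.Name :=
  .and (ctl0F N c0) (.and
    (bigAnd (nz N) ((Finset.univ : Finset K).toList.map fun k =>
      if k = k₀ then cst N true else
        bigAnd (nz N) ((List.range (x.length + m + W)).map fun i => posF N k i none)))
    (.and (bigAnd (nz N) ((List.range x.length).map fun i => posF N k₀ i (x[i]?.map inX)))
    (.and (bigAnd (nz N) ((List.range m).map fun j => posB N k₀ (x.length + j) (nU N j) inU))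
    (bigAnd (nz N) ((List.range W).map fun j => posF N k₀ (x.length + m + j) none)))))

/-- The whole tableau, with `T` steps. -/
def validF (x : List Γ) (m T : ℕ) : Fml IsoImp.Name :=
  .and (initF N k₀ inX inU c0 x m (T + 1)) (stepsF M N T (x.length + m + T))

end formulas

section semantics

variable {C K Sg : Type} [Fintype C] [DecidableEq C] [Fintype K] [DecidableEq K]
  [Fintype Sg] [DecidableEq Sg]

variable {M : UM C K Sg} {N : Kd C K Sg → ℕ → ℕ → IsoImp.Name}

variable {Γ : Type} {k₀ : K} {inX : Γ → Sg} {inU : Bool → Sg} {c0 : C}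

/-- The initial stacks. -/
def stk0 (k₀ : K) (inX : Γ → Sg) (inU : Bool → Sg) (x : List Γ) (u : List Bool) :
    K → List Sg :=
  fun k => if k = k₀ then x.map inX ++ u.map inU else []

theorem eval_initF (A : IsoImp.Name → Bool) (x : List Γ) (m W : ℕ) (u : List Bool)
    (hu : u = (List.range m).map fun j => A (nU N j)) :
    (initF N k₀ inX inU c0 x m W).eval A = true ↔
      (∀ c, A (N (.inl c) 0 0) = decide (c = c0)) ∧
      ∀ k a, ∀ i < x.length + m + W, A (N (.inr (.inl (k, a))) 0 i) =
        decide ((stk0 k₀ inX inU x u k)[i]? = a) := by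
  have hul : u.length = m := by simp [hu]
  have e1 : ∀ i < x.length, (stk0 k₀ inX inU x u k₀)[i]? = x[i]?.map inX := by
    intro i hi
    simp only [stk0, if_true]
    rw [List.getElem?_append_left (by simpa using hi), List.getElem?_map]
  have e2 : ∀ j < m, (stk0 k₀ inX inU x u k₀)[x.length + j]? = some (inU (A (nU N j))) := by
    intro j hj
    simp only [stk0, if_true]
    rw [List.getElem?_append_right (by simp), List.getElem?_map, hu]
    simp [hj]
  have e4 : ∀ j, (stk0 k₀ inX inU x u k₀)[x.length + m + j]? = none := by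
    intro j
    simp only [stk0, if_true]
    rw [List.getElem?_eq_none]
    simp
    omega
  simp only [initF, Fml.eval, Bool.and_eq_true]
  have h0 : (ctl0F N c0).eval A = true ↔ (∀ c, A (N (.inl c) 0 0) = decide (c = c0)) := by
    rw [ctl0F, eval_bigAnd]
    simp only [List.mem_map, Finset.mem_toList, Finset.mem_univ, true_and]
    constructor
    · intro h c
      have := h _ ⟨c, rfl⟩
      rw [eval_fiff, eval_cst] at this
      simpa [vc, Fml.eval] using this
    · rintro h f ⟨c, rfl⟩
      rw [eval_fiff, eval_cst]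
      simpa [vc, Fml.eval] using h c
  rw [h0]
  refine and_congr_right fun _ => ?_
  constructor
  · rintro ⟨h1, h2, h3, h5⟩ k a i hi
    by_cases hk : k = k₀
    · subst hk
      rw [eval_bigAnd] at h2 h3 h5
      by_cases c1 : i < x.length
      · have := (eval_posF A k i (x[i]?.map inX)).1
          (h2 _ (List.mem_map.2 ⟨i, by simpa using c1, rfl⟩)) a
        rw [this, e1 i c1]
      · by_cases c2 : i < x.length + m
        · obtain ⟨j, rfl⟩ : ∃ j, i = x.length + j := ⟨i - x.length, by omega⟩
          have hj : j < m := by omega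
          have := (eval_posB A k (x.length + j) (nU N j) inU).1
            (h3 _ (List.mem_map.2 ⟨j, by simpa using hj, rfl⟩)) a
          rw [this, e2 j hj]
        · obtain ⟨j, rfl⟩ : ∃ j, i = x.length + m + j := ⟨i - (x.length + m), by omega⟩
          have hj : j < W := by omega
          have := (eval_posF A k (x.length + m + j) none).1
            (h5 _ (List.mem_map.2 ⟨j, by simpa using hj, rfl⟩)) a
          rw [this, e4 j]
    · rw [eval_bigAnd] at h1
      have := h1 _ (List.mem_map.2 ⟨k, by simp, rfl⟩)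
      rw [if_neg hk, eval_bigAnd] at this
      have := (eval_posF A k i none).1 (this _ (List.mem_map.2 ⟨i, by simpa using hi, rfl⟩)) a
      rw [this]
      simp [stk0, if_neg hk]
  · intro h
    refine ⟨?_, ?_, ?_, ?_⟩
    · rw [eval_bigAnd]
      intro f hf
      obtain ⟨k, _, rfl⟩ := List.mem_map.1 hf
      by_cases hk : k = k₀
      · simp [if_pos hk]
      · rw [if_neg hk, eval_bigAnd]
        intro f hf
        obtain ⟨i, hi, rfl⟩ := List.mem_map.1 hf
        rw [eval_posF]
        intro a
        rw [h k a i (by simpa using hi)]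
        simp [stk0, if_neg hk]
    · rw [eval_bigAnd]
      intro f hf
      obtain ⟨i, hi, rfl⟩ := List.mem_map.1 hf
      have hi' : i < x.length := by simpa using hi
      rw [eval_posF]
      intro a
      rw [h k₀ a i (by omega), e1 i hi']
    · rw [eval_bigAnd]
      intro f hf
      obtain ⟨j, hj, rfl⟩ := List.mem_map.1 hf
      have hj' : j < m := by simpa using hj
      rw [eval_posB]
      intro a
      rw [h k₀ a _ (by omega), e2 j hj']
    · rw [eval_bigAnd]
      intro f hf
      obtain ⟨j, hj, rfl⟩ := List.mem_map.1 hf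
      have hj' : j < W := by simpa using hj
      rw [eval_posF]
      intro a
      rw [h k₀ a _ (by omega), e4 j]

/-- A satisfying assignment of the tableau describes the run. -/
theorem valid_run (A : IsoImp.Name → Bool) (x : List Γ) (m T : ℕ) (u : List Bool)
    (hu : u = (List.range m).map fun j => A (nU N j))
    (h : (validF M N k₀ inX inU c0 x m T).eval A = true) :
    ∀ t ≤ T, (∀ c, A (N (.inl c) t 0) =
        decide (c = (M.step^[t] (c0, stk0 k₀ inX inU x u)).1)) ∧
      ∀ k a, ∀ i, i + t ≤ x.length + m + T → A (N (.inr (.inl (k, a))) t i) =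
        decide (((M.step^[t] (c0, stk0 k₀ inX inU x u)).2 k)[i]? = a) := by
  simp only [validF, Fml.eval, Bool.and_eq_true] at h
  obtain ⟨h0, h1⟩ := h
  rw [eval_initF A x m (T + 1) u hu] at h0
  intro t
  induction t with
  | zero =>
    intro _
    refine ⟨h0.1, fun k a i hi => ?_⟩
    exact h0.2 k a i (by omega)
  | succ t ih =>
    intro ht
    obtain ⟨ih1, ih2⟩ := ih (by omega)
    rw [stepsF, eval_bigAnd] at h1
    have h2 := h1 _ (List.mem_map.2 ⟨t, by simpa using ht, rfl⟩)
    simp only [Fml.eval, Bool.and_eq_true] at h2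
    obtain ⟨h2, h3⟩ := h2
    rw [stepT] at h2
    simp only [Fml.eval, Bool.and_eq_true] at h2
    obtain ⟨h2, h2'⟩ := h2
    rw [eval_bigAnd] at h2 h2' h3
    rw [Function.iterate_succ_apply']
    set X := M.step^[t] (c0, stk0 k₀ inX inU x u) with hX
    refine ⟨fun c => ?_, fun k a i hi => ?_⟩
    · have := h2 _ (List.mem_map.2 ⟨c, by simp, rfl⟩)
      rw [eval_ctlF A t c X.1 X.2 ih1 (fun k a => ih2 k a 0 (by omega))] at this
      exact this
    · cases i with
      | zero =>
        have := h2' _ (List.mem_map.2 ⟨(k, a), by simp, rfl⟩)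
        rw [eval_sy0F A t k a X.1 X.2 ih1 (fun k a i hi => ih2 k a i (by omega))] at this
        exact this
      | succ i =>
        have := h3 _ (List.mem_map.2 ⟨i, by simp; omega, rfl⟩)
        rw [stepTI, eval_bigAnd] at this
        have := this _ (List.mem_map.2 ⟨(k, a), by simp, rfl⟩)
        rw [eval_sy1F A t i k a X.1 X.2 ih1 (fun k a j hj => ih2 k a j (by omega))] at this
        exact this

/-- Conversely, an assignment describing the run satisfies the tableau. -/
theorem run_valid (A : IsoImp.Name → Bool) (x : List Γ) (m T : ℕ) (u : List Bool)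
    (hu : u = (List.range m).map fun j => A (nU N j))
    (h : ∀ t, (∀ c, A (N (.inl c) t 0) =
        decide (c = (M.step^[t] (c0, stk0 k₀ inX inU x u)).1)) ∧
      ∀ k a, ∀ i, A (N (.inr (.inl (k, a))) t i) =
        decide (((M.step^[t] (c0, stk0 k₀ inX inU x u)).2 k)[i]? = a)) :
    (validF M N k₀ inX inU c0 x m T).eval A = true := by
  simp only [validF, Fml.eval, Bool.and_eq_true]
  constructor
  · rw [eval_initF A x m (T + 1) u hu]
    exact ⟨(h 0).1, fun k a i _ => (h 0).2 k a i⟩
  · rw [stepsF, eval_bigAnd]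
    intro f hf
    obtain ⟨t, _, rfl⟩ := List.mem_map.1 hf
    have ht := h t
    have ht' := h (t + 1)
    rw [Function.iterate_succ_apply'] at ht'
    set X := M.step^[t] (c0, stk0 k₀ inX inU x u) with hX
    simp only [Fml.eval, Bool.and_eq_true, stepT]
    refine ⟨⟨?_, ?_⟩, ?_⟩
    · rw [eval_bigAnd]
      intro f hf
      obtain ⟨c, _, rfl⟩ := List.mem_map.1 hf
      rw [eval_ctlF A t c X.1 X.2 ht.1 (fun k a => ht.2 k a 0)]
      exact ht'.1 c
    · rw [eval_bigAnd]
      intro f hf
      obtain ⟨p, _, rfl⟩ := List.mem_map.1 hf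
      rw [eval_sy0F A t p.1 p.2 X.1 X.2 ht.1 (fun k a i _ => ht.2 k a i)]
      exact ht'.2 _ _ _
    · rw [eval_bigAnd]
      intro f hf
      obtain ⟨i, _, rfl⟩ := List.mem_map.1 hf
      rw [stepTI, eval_bigAnd]
      intro f hf
      obtain ⟨p, _, rfl⟩ := List.mem_map.1 hf
      rw [eval_sy1F A t i p.1 p.2 X.1 X.2 ht.1 (fun k a i _ => ht.2 k a i)]
      exact ht'.2 _ _ _

end semantics

section polytime

variable {E : Env} {γ α : Type} [Enc E γ] [Enc E α]

variable {C K Sg : Type} [Fintype C] [DecidableEq C] [Fintype K] [DecidableEq K]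
  [Fintype Sg] [DecidableEq Sg]

variable (M : UM C K Sg)

variable {Γ : Type} [Fintype Γ] [Enc E Γ] (k₀ : K) (inX : Γ → Sg) (inU : Bool → Sg) (c0 : C)

theorem pf_initF {x : γ → List Γ} {m W : γ → ℕ} (hx : Poly E x) (hm : Poly E m)
    (hW : Poly E W) : PF E (fun c => initF NN k₀ inX inU c0 (x c) (m c) (W c)) := by
  unfold initF
  have hl := hx.length
  refine PF.and ?_ (PF.and ?_ (PF.and ?_ (PF.and ?_ ?_)))
  · exact PF.bigAndConst _ _ fun c => PF.fiff (pf_vc c (Poly.const 0)) (PF.const _)
  · refine PF.bigAndConst _ _ fun k => ?_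
    by_cases h : k = k₀
    · simp only [if_pos h]; exact PF.const _
    · simp only [if_neg h]
      exact PF.bigAndOver (G := fun p : γ × ℕ => posF NN k p.2 none) _
        (Poly.add (Poly.add hl hm) hW).range (pf_posF k none Poly.snd)
  · refine PF.bigAndOver (G := fun p : γ × ℕ => posF NN k₀ p.2 ((x p.1)[p.2]?.map inX)) _
      hl.range ?_
    have h1 : Poly E (fun p : γ × ℕ => (x p.1)[p.2]?) :=
      IsoImp.Poly.getElem? (hx.comp Poly.fst) Poly.snd
    have h2 : PF E (fun p : γ × ℕ => posF (C := C) (Sg := Sg) NN k₀ p.2 none) :=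
      pf_posF k₀ none Poly.snd
    have h3 : PF E (fun p : (γ × ℕ) × Γ => posF (C := C) NN k₀ p.1.2 (some (inX p.2))) :=
      PF.finCase (α := Γ) (F := fun p : (γ × ℕ) × Γ => posF (C := C) NN k₀ p.1.2 (some (inX p.2)))
        fun g => pf_posF k₀ (some (inX g)) Poly.snd
    refine (Poly.optCases h1 h2 h3).congr fun p => ?_
    beta_reduce
    cases (x p.1)[p.2]? <;> rfl
  · exact PF.bigAndOver (G := fun p : γ × ℕ => posB NN k₀ ((x p.1).length + p.2) (nU NN p.2) inU) _
      hm.range (pf_posB k₀ inU (Poly.add (hl.comp Poly.fst) Poly.snd)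
        (poly_nm _ (Poly.const 0) Poly.snd))
  · exact PF.bigAndOver (G := fun p : γ × ℕ => posF NN k₀ ((x p.1).length + m p.1 + p.2)
      none) _ hW.range (pf_posF k₀ none (Poly.add (Poly.add (hl.comp Poly.fst)
        (hm.comp Poly.fst)) Poly.snd))

theorem pf_validF {x : γ → List Γ} {m T : γ → ℕ} (hx : Poly E x) (hm : Poly E m)
    (hT : Poly E T) : PF E (fun c => validF M NN k₀ inX inU c0 (x c) (m c) (T c)) :=
  PF.and (pf_initF k₀ inX inU c0 hx hm hT.succ)
    (pf_stepsF M hT (Poly.add (Poly.add hx.length hm) hT))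

end polytime

section verifier

variable {Γ : Type} {R : List Γ × List Bool → Bool}

/-- The string of a pair. -/
abbrev enc2 {Γ : Type} (t : List Γ × List Bool) : List (Γ ⊕ Bool) :=
  t.1.map Sum.inl ++ t.2.map Sum.inr

variable (Mc : TM2ComputableInPolyTime (enc2 (Γ := Γ)) (fun b : Bool => [b]) R)

/-- The accepting symbol. -/
def gT : Σ k, Mc.tm.Γ k := ⟨Mc.tm.k₁, Mc.outputAlphabet.symm true⟩

def aT : SS Mc.tm (gT Mc) := ⟨gT Mc, mem_syms_self⟩

def jX (g : Γ) : SS Mc.tm (gT Mc) :=
  ⟨⟨Mc.tm.k₀, Mc.inputAlphabet.symm (Sum.inl g)⟩, mem_syms_in _⟩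
def jU (b : Bool) : SS Mc.tm (gT Mc) :=
  ⟨⟨Mc.tm.k₀, Mc.inputAlphabet.symm (Sum.inr b)⟩, mem_syms_in _⟩

def cStart : CC Mc.tm := (some ⟨Mc.tm.m Mc.tm.main, main_mem _ _⟩, Mc.tm.initialState)

/-- The time bound of the simulation. -/
def TT (n m : ℕ) : ℕ := depMax Mc.tm * Mc.time.eval (n + m)

theorem run_accept (x : List Γ) (u : List Bool) (T : ℕ)
    (hT : depMax Mc.tm * Mc.time.eval (enc2 (x, u)).length ≤ T) :
    ((((sim Mc.tm (gT Mc)).step^[T] (cStart Mc, stk0 Mc.tm.k₀ (jX Mc) (jU Mc) x u)).2
      Mc.tm.k₁)[0]? = some (aT Mc)) ↔ R (x, u) = true := by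
  obtain ⟨⟨n, hn⟩, hle⟩ := Mc.outputsFun (x, u)
  have hrel : RelC Mc.tm (gT Mc) (initList Mc.tm (List.map Mc.inputAlphabet.invFun (enc2 (x, u))))
      (cStart Mc, stk0 Mc.tm.k₀ (jX Mc) (jU Mc) x u) := by
    refine ⟨rfl, rfl, fun k => ?_⟩
    rw [init_stk]
    by_cases h : k = Mc.tm.k₀
    · simp only [stk0, if_pos h, List.map_append, List.map_map]
      rfl
    · simp only [stk0, if_neg h, List.map_nil]
  have hn' : (flip bind (TM2.step Mc.tm.m))^[n]
      (some (initList Mc.tm (List.map Mc.inputAlphabet.invFun (enc2 (x, u))))) =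
      some (haltList Mc.tm (List.map Mc.outputAlphabet.invFun [R (x, u)])) := hn
  obtain ⟨k, hk, hr⟩ := sim_steps n hrel hn'
  have hkT : k ≤ T := by
    refine hk.trans ((Nat.mul_le_mul_left _ hle).trans ?_)
    exact hT
  obtain ⟨d, rfl⟩ := Nat.exists_eq_add_of_le hkT
  rw [Nat.add_comm k d, Function.iterate_add_apply, sim_halt hr rfl]
  obtain ⟨_, _, h3⟩ := hr
  have h4 := h3 Mc.tm.k₁
  rw [halt_stk] at h4
  set S := ((sim Mc.tm (gT Mc)).step^[k]
    (cStart Mc, stk0 Mc.tm.k₀ (jX Mc) (jU Mc) x u)).2 Mc.tm.k₁ with hS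
  cases hSc : S with
  | nil => rw [hSc] at h4; simp at h4
  | cons a l =>
    rw [hSc] at h4
    simp only [List.map_cons, List.cons.injEq, List.map_nil] at h4
    obtain ⟨h5, _⟩ := h4
    simp only [List.getElem?_cons_zero, Option.some.injEq]
    rw [Subtype.ext_iff, h5]
    simp only [aT, gT]
    constructor
    · intro h
      have h6 := eq_of_heq (Sigma.mk.inj h).2
      exact Mc.outputAlphabet.symm.injective h6
    · intro h
      rw [h]
      rfl

variable (q : ℕ[X])

open Classical in
/-- The formula of an input. -/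
def theta (x : List Γ) : Fml IsoImp.Name :=
  .and (validF (sim Mc.tm (gT Mc)) NN Mc.tm.k₀ (jX Mc) (jU Mc) (cStart Mc) x
    (q.eval x.length) (TT Mc x.length (q.eval x.length)))
    (vs (C := CC Mc.tm) NN Mc.tm.k₁ (some (aT Mc)) (TT Mc x.length (q.eval x.length)) 0)

open Classical in
theorem theta_spec (x : List Γ) :
    (∃ A : IsoImp.Name → Bool, (theta Mc q x).eval A = true) ↔
      ∃ u : List Bool, u.length = q.eval x.length ∧ R (x, u) = true := by
  set m := q.eval x.length with hm
  set T := TT Mc x.length m with hT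
  have hT' : ∀ u : List Bool, u.length = m →
      depMax Mc.tm * Mc.time.eval (enc2 (x, u)).length ≤ T := by
    intro u hu
    rw [hT, TT]
    apply Nat.mul_le_mul_left
    apply pmono
    simp only [enc2, List.length_append, List.length_map]
    omega
  constructor
  · rintro ⟨A, hA⟩
    set u := (List.range m).map (fun j =>
      A (nU (NN (C := CC Mc.tm) (K := Mc.tm.K) (Sg := SS Mc.tm (gT Mc))) j)) with hu
    have hul : u.length = m := by simp [hu]
    refine ⟨u, hul, ?_⟩
    simp only [theta, Fml.eval, Bool.and_eq_true] at hA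
    have h1 := (valid_run A x m T u hu hA.1 T le_rfl).2 Mc.tm.k₁ (some (aT Mc)) 0 (by omega)
    have h2 := hA.2
    simp only [vs, Fml.eval] at h2
    rw [h1, decide_eq_true_eq] at h2
    exact (run_accept Mc x u T (hT' u hul)).1 h2
  · rintro ⟨u, hul, hR⟩
    let val : Kd (CC Mc.tm) Mc.tm.K (SS Mc.tm (gT Mc)) → ℕ → ℕ → Bool := fun κ t i =>
      match κ with
      | .inl c => decide (c = ((sim Mc.tm (gT Mc)).step^[t]
          (cStart Mc, stk0 Mc.tm.k₀ (jX Mc) (jU Mc) x u)).1)
      | .inr (.inl p) => decide ((((sim Mc.tm (gT Mc)).step^[t]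
          (cStart Mc, stk0 Mc.tm.k₀ (jX Mc) (jU Mc) x u)).2 p.1)[i]? = p.2)
      | .inr (.inr 0) => u.getD i false
      | .inr (.inr 1) => false
      | .inr (.inr 2) => false
      | .inr (.inr 3) => false
    obtain ⟨A, hA⟩ := exists_assignment val
    have hu : u = (List.range m).map fun j =>
        A (nU (NN (C := CC Mc.tm) (K := Mc.tm.K) (Sg := SS Mc.tm (gT Mc))) j) := by
      apply List.ext_getElem
      · simp [hul]
      · intro i h1 h2
        rw [List.getElem_map, List.getElem_range]
        have := hA (.inr (.inr 0)) 0 i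
        simp only [nU]
        rw [this]
        simp [val, h1]
    refine ⟨A, ?_⟩
    have h2 := run_valid (M := sim Mc.tm (gT Mc)) (N := NN) (k₀ := Mc.tm.k₀) (inX := jX Mc)
      (inU := jU Mc) (c0 := cStart Mc) A x m T u hu
      (fun t => ⟨fun c => hA (.inl c) t 0, fun k a i => hA (.inr (.inl (k, a))) t i⟩)
    simp only [theta, Fml.eval, Bool.and_eq_true]
    refine ⟨h2, ?_⟩
    simp only [vs, Fml.eval]
    have h3 := hA (.inr (.inl (Mc.tm.k₁, some (aT Mc)))) T 0
    rw [h3]
    simp only [val, decide_eq_true_eq]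
    exact (run_accept Mc x u T (hT' u hul)).2 hR

end verifier

section

variable {E : Env}

open Classical in
theorem pf_theta {Γ : Type} [Fintype Γ] [Enc E Γ] {R : List Γ × List Bool → Bool}
    (Mc : TM2ComputableInPolyTime (enc2 (Γ := Γ)) (fun b : Bool => [b]) R) (q : ℕ[X]) :
    PF E (fun x : List Γ => theta Mc q x) := by
  have hl : Poly E (fun x : List Γ => x.length) := Poly.length Poly.id
  have hm : Poly E (fun x : List Γ => q.eval x.length) := Poly.polyEval q hl
  have hT : Poly E (fun x : List Γ => TT Mc x.length (q.eval x.length)) :=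
    Poly.mul (Poly.const _) (Poly.polyEval _ (Poly.add hl hm))
  exact PF.and (pf_validF _ _ _ _ _ Poly.id hm hT) (pf_vs _ _ hT (Poly.const 0))

end

end

end Pool.Agent.IncInd
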