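import Pool.Agent.Lib_MP_5661ce_lc.Scan
import Pool.Agent.Lib_MP_5661ce_lc.NPTab

/-!
# Independence of incidence structures is NP-hard
-/

set_option linter.unusedSectionVars false

namespace Pool.Agent.IncInd

open Pool.Agent.PT81 Turing

/-! ### The encoding is injective -/

/-- The string does not begin with a bit. -/
def NB (s : List Sym) : Prop := ∀ b t, s ≠ Sym.bit b :: t
/-- The string does not begin with `h`. -/
def NH (h : Sym) (s : List Sym) : Prop := ∀ t, s ≠ h :: t

theorem bits_inj' : ∀ (x y : List Bool) (s t : List Sym), NB s → NB t →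
    x.map Sym.bit ++ s = y.map Sym.bit ++ t → x = y ∧ s = t := by
  intro x
  induction x with
  | nil =>
    intro y s t hs ht h
    cases y with
    | nil => exact ⟨rfl, by simpa using h⟩
    | cons b y => exact absurd (by simpa using h) (hs b (y.map Sym.bit ++ t))
  | cons a x ih =>
    intro y s t hs ht h
    cases y with
    | nil => exact absurd (by simpa using h.symm) (ht a (x.map Sym.bit ++ s))
    | cons b y =>
      simp only [List.map_cons, List.cons_append, List.cons.injEq, Sym.bit.injEq] at h
      obtain ⟨h1, h2⟩ := ih y s t hs ht h.2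
      exact ⟨by rw [h.1, h1], h2⟩

/-- Strings of lists of items, each item beginning with `h`. -/
theorem items_inj {α : Type} (h : Sym) (hb : ∀ b, h ≠ Sym.bit b) (g : α → List Sym)
    (hg : ∀ (a b : α) (s t : List Sym), NB s → NB t → g a ++ s = g b ++ t → a = b ∧ s = t) :
    ∀ (l l' : List α) (s t : List Sym), NB s → NB t → NH h s → NH h t →
      l.flatMap (fun a => h :: g a) ++ s = l'.flatMap (fun a => h :: g a) ++ t → l = l' ∧ s = t := by
  have hnb : ∀ (l : List α) (s : List Sym), NB s → NB (l.flatMap (fun a => h :: g a) ++ s) := by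
    intro l s hs
    cases l with
    | nil => simpa using hs
    | cons a l =>
      intro b t ht
      simp only [List.flatMap_cons, List.cons_append, List.cons.injEq] at ht
      exact hb b ht.1
  intro l
  induction l with
  | nil =>
    intro l' s t hs ht hs' ht' e
    cases l' with
    | nil => exact ⟨rfl, by simpa using e⟩
    | cons a l' =>
      exact absurd (by simpa using e) (hs' (g a ++ (l'.flatMap (fun a => h :: g a) ++ t)))
  | cons a l ih =>
    intro l' s t hs ht hs' ht' e
    cases l' with
    | nil =>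
      exact absurd (by simpa using e.symm) (ht' (g a ++ (l.flatMap (fun a => h :: g a) ++ s)))
    | cons b l' =>
      simp only [List.flatMap_cons, List.cons_append, List.append_assoc, List.cons.injEq,
        true_and] at e
      obtain ⟨h1, h2⟩ := hg a b _ _ (hnb l s hs) (hnb l' t ht) e
      obtain ⟨h3, h4⟩ := ih l' s t hs ht hs' ht' h2
      exact ⟨by rw [h1, h3], h4⟩

theorem nb_items {α : Type} (h : Sym) (hb : ∀ b, h ≠ Sym.bit b) (g : α → List Sym) (l : List α)
    (s : List Sym) (hs : NB s) : NB (l.flatMap (fun a => h :: g a) ++ s) := by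
  cases l with
  | nil => simpa using hs
  | cons a l =>
    intro b t ht
    simp only [List.flatMap_cons, List.cons_append, List.cons.injEq] at ht
    exact hb b ht.1

theorem nh_items {α : Type} (h h' : Sym) (hb : h ≠ h') (g : α → List Sym) (l : List α)
    (s : List Sym) (hs : NH h' s) : NH h' (l.flatMap (fun a => h :: g a) ++ s) := by
  cases l with
  | nil => simpa using hs
  | cons a l =>
    intro t ht
    simp only [List.flatMap_cons, List.cons_append, List.cons.injEq] at ht
    exact hb ht.1

theorem code_inj' {S S' : Inc} (h : S.code = S'.code) : S = S' := by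
  obtain ⟨P, L, I⟩ := S
  obtain ⟨P', L', I'⟩ := S'
  have nbn : NB [] := fun b t => by simp
  have nhn : ∀ h, NH h [] := fun h t => by simp
  have hI : ∀ I : List (Name × Name), I.flatMap (fun e => Sym.ic ::
      (e.1.map Sym.bit ++ Sym.sep :: e.2.map Sym.bit)) =
      I.flatMap (fun e => Sym.ic :: (e.1.map Sym.bit ++ Sym.sep :: e.2.map Sym.bit)) ++ [] :=
    fun I => by simp
  simp only [Inc.code] at h
  rw [hI I, hI I'] at h
  obtain ⟨h1, h2⟩ := items_inj Sym.pt (by simp) (fun i : Name => i.map Sym.bit)
    (fun a b s t hs ht e => bits_inj' a b s t hs ht e) P P' _ _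
    (nb_items _ (by simp) _ _ _ (nb_items _ (by simp) _ _ _ nbn))
    (nb_items _ (by simp) _ _ _ (nb_items _ (by simp) _ _ _ nbn))
    (nh_items _ _ (by simp) _ _ _ (nh_items _ _ (by simp) _ _ _ (nhn _)))
    (nh_items _ _ (by simp) _ _ _ (nh_items _ _ (by simp) _ _ _ (nhn _))) h
  obtain ⟨h3, h4⟩ := items_inj Sym.ln (by simp) (fun i : Name => i.map Sym.bit)
    (fun a b s t hs ht e => bits_inj' a b s t hs ht e) L L' _ _
    (nb_items _ (by simp) _ _ _ nbn) (nb_items _ (by simp) _ _ _ nbn)
    (nh_items _ _ (by simp) _ _ _ (nhn _)) (nh_items _ _ (by simp) _ _ _ (nhn _)) h2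
  obtain ⟨h5, _⟩ := items_inj Sym.ic (by simp)
    (fun e : Name × Name => e.1.map Sym.bit ++ Sym.sep :: e.2.map Sym.bit)
    (fun a b s t hs ht e => by
      simp only [List.append_assoc, List.cons_append] at e
      obtain ⟨k1, k2⟩ := bits_inj' _ _ _ _ (fun b t => by simp) (fun b t => by simp) e
      rw [List.cons.injEq] at k2
      obtain ⟨k3, k4⟩ := bits_inj' _ _ _ _ hs ht k2.2
      exact ⟨Prod.ext k1 k3, k4⟩) I I' _ _ nbn nbn (nhn _) (nhn _) h4
  rw [h1, h3, h5]

theorem mem_INDEP {S : Inc} (hS : S.Valid) : S.code ∈ INDEP ↔ S.Independent := by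
  constructor
  · rintro ⟨S', _, h, hi⟩
    rw [code_inj' h]
    exact hi
  · intro h
    exact ⟨S, hS, rfl, h⟩

instance : Inhabited Sym := ⟨Sym.pt⟩

/-- Independence of incidence structures is NP-hard. -/
theorem hard {Γ : Type} [Fintype Γ] (L : Set (List Γ)) (hL : InNP L) : PolyReduces L INDEP := by
  classical
  obtain ⟨R, q, ⟨Mc⟩, hR⟩ := hL
  refine ⟨fun x => (incOf (gatesOf (theta Mc q x).code)).code, ?_, fun x => ?_⟩
  · let _ : Enc (io Γ Sym) Γ := IsoImp.finEnc _ _
    let _ : Enc (io Γ Sym) Sym := IsoImp.finEnc _ _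
    exact IsoImp.poly_toTM2 (poly_red (pf_theta Mc q)) _ _ _ (fun _ => rfl)
  · obtain ⟨h1, h2⟩ := incOf_spec (theta Mc q x)
    show x ∈ L ↔ (incOf (gatesOf (theta Mc q x).code)).code ∈ INDEP
    rw [gatesOf_code, mem_INDEP h1, h2, theta_spec, hR x]

end Pool.Agent.IncInd
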