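import Mathlib.LinearAlgebra.Matrix.Rank
import Mathlib.LinearAlgebra.Matrix.NonsingularInverse
import Mathlib.LinearAlgebra.Matrix.ToLin
import Mathlib.LinearAlgebra.FiniteDimensional.Basic
import Mathlib.LinearAlgebra.Dimension.Constructions
import Mathlib.Data.Real.Basic
import Mathlib.Tactic

/-!
# Realizations of incidence structures with the maximal number of incidences
-/

namespace Pool.Agent.IncInd

open Finset

set_option linter.unusedSectionVars false

variable {P F K : Type} [Fintype P] [Fintype F] [Fintype K] [DecidableEq P] [DecidableEq F]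

/-- The row of an incidence. -/
def row (x : P → ℝ) (A : F → ℝ) (e : P × F) : (P ⊕ P) ⊕ (F ⊕ F) → ℝ
  | .inl (.inl i) => if i = e.1 then A e.2 else 0
  | .inl (.inr i) => if i = e.1 then 1 else 0
  | .inr (.inl j) => if j = e.2 then x e.1 else 0
  | .inr (.inr j) => if j = e.2 then 1 else 0

/-- `g` is a linear dependency between the rows. -/
def Stress (x : P → ℝ) (A : F → ℝ) (p : K → P) (f : K → F) (g : K → ℝ) : Prop :=
  (∀ i, ∑ k, (if p k = i then g k * A (f k) else 0) = 0) ∧
  (∀ i, ∑ k, (if p k = i then g k else 0) = 0) ∧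
  (∀ j, ∑ k, (if f k = j then g k * x (p k) else 0) = 0) ∧
  (∀ j, ∑ k, (if f k = j then g k else 0) = 0)

theorem linInd_iff (x : P → ℝ) (A : F → ℝ) (p : K → P) (f : K → F) :
    LinearIndependent ℝ (fun k => row x A (p k, f k)) ↔
      ∀ g : K → ℝ, Stress x A p f g → ∀ k, g k = 0 := by
  rw [Fintype.linearIndependent_iff]
  refine forall_congr' fun g => ?_
  have : (∑ k, g k • row x A (p k, f k) = 0) ↔ Stress x A p f g := by
    rw [funext_iff]
    simp only [Finset.sum_apply, Pi.smul_apply, smul_eq_mul, Pi.zero_apply]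
    constructor
    · intro h
      refine ⟨fun i => ?_, fun i => ?_, fun j => ?_, fun j => ?_⟩
      · refine (Finset.sum_congr rfl fun k _ => ?_).trans (h (.inl (.inl i)))
        by_cases hk : p k = i
        · simp [row, hk]
        · simp [row, hk, Ne.symm hk]
      · refine (Finset.sum_congr rfl fun k _ => ?_).trans (h (.inl (.inr i)))
        by_cases hk : p k = i
        · simp [row, hk]
        · simp [row, hk, Ne.symm hk]
      · refine (Finset.sum_congr rfl fun k _ => ?_).trans (h (.inr (.inl j)))
        by_cases hk : f k = j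
        · simp [row, hk]
        · simp [row, hk, Ne.symm hk]
      · refine (Finset.sum_congr rfl fun k _ => ?_).trans (h (.inr (.inr j)))
        by_cases hk : f k = j
        · simp [row, hk]
        · simp [row, hk, Ne.symm hk]
    · rintro ⟨h1, h2, h3, h4⟩ c
      rcases c with (i | i) | (j | j)
      · refine (Finset.sum_congr rfl fun k _ => ?_).trans (h1 i)
        by_cases hk : p k = i
        · simp [row, hk]
        · simp [row, hk, Ne.symm hk]
      · refine (Finset.sum_congr rfl fun k _ => ?_).trans (h2 i)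
        by_cases hk : p k = i
        · simp [row, hk]
        · simp [row, hk, Ne.symm hk]
      · refine (Finset.sum_congr rfl fun k _ => ?_).trans (h3 j)
        by_cases hk : f k = j
        · simp [row, hk]
        · simp [row, hk, Ne.symm hk]
      · refine (Finset.sum_congr rfl fun k _ => ?_).trans (h4 j)
        by_cases hk : f k = j
        · simp [row, hk]
        · simp [row, hk, Ne.symm hk]
  rw [this]

/-- A non-degenerate realization at which the rows are linearly independent. -/
structure Good (p : K → P) (f : K → F) (x y : P → ℝ) (A C : F → ℝ) : Prop where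
  inc : ∀ k, A (f k) * x (p k) + y (p k) + C (f k) = 0
  pts : ¬ ∃ a b c : ℝ, (a ≠ 0 ∨ b ≠ 0) ∧ ∀ i, a * x i + b * y i + c = 0
  lns : ¬ ∃ u v : ℝ, ∀ j, A j * u + v + C j = 0
  ind : ∀ g : K → ℝ, Stress x A p f g → ∀ k, g k = 0

/-- Independence of an abstract incidence structure. -/
def Ind (p : K → P) (f : K → F) : Prop := ∃ x y A C, Good p f x y A C

/-- The linear system of first-order deformations. -/
def Lmap (x : P → ℝ) (A : F → ℝ) (p : K → P) (f : K → F) :
    ((P ⊕ P) ⊕ (F ⊕ F) → ℝ) →ₗ[ℝ] (K → ℝ) where
  toFun z := fun k => A (f k) * z (.inl (.inl (p k))) + z (.inl (.inr (p k))) +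
    x (p k) * z (.inr (.inl (f k))) + z (.inr (.inr (f k)))
  map_add' z w := by ext k; simp; ring
  map_smul' c z := by ext k; simp; ring

theorem Lmap_eq (x : P → ℝ) (A : F → ℝ) (p : K → P) (f : K → F) :
    Lmap x A p f = (Matrix.of fun k => row x A (p k, f k)).mulVecLin := by
  ext c k
  rw [LinearMap.comp_apply, LinearMap.comp_apply]
  simp only [Matrix.mulVecLin_apply, Lmap, LinearMap.coe_mk, AddHom.coe_mk,
    LinearMap.coe_single]
  rw [Matrix.mulVec_single_one]
  simp only [Matrix.col_apply, Matrix.of_apply]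
  rcases c with (i | i) | (j | j)
  · by_cases h : p k = i
    · subst h; simp [row]
    · simp [row, h, Ne.symm h]
  · by_cases h : p k = i
    · subst h; simp [row]
    · simp [row, h, Ne.symm h]
  · by_cases h : f k = j
    · subst h; simp [row]
    · simp [row, h, Ne.symm h]
  · by_cases h : f k = j
    · subst h; simp [row]
    · simp [row, h, Ne.symm h]

theorem finrank_ker (x : P → ℝ) (A : F → ℝ) (p : K → P) (f : K → F)
    (h : ∀ g : K → ℝ, Stress x A p f g → ∀ k, g k = 0) :
    Fintype.card K + Module.finrank ℝ (LinearMap.ker (Lmap x A p f)) =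
      2 * Fintype.card P + 2 * Fintype.card F := by
  have hli : LinearIndependent ℝ (Matrix.of fun k => row x A (p k, f k)).row :=
    (linInd_iff x A p f).2 h
  have h1 := hli.rank_matrix
  have h2 := LinearMap.finrank_range_add_finrank_ker (Lmap x A p f)
  rw [Module.finrank_fintype_fun_eq_card] at h2
  have h3 : Module.finrank ℝ (LinearMap.range (Lmap x A p f)) = Fintype.card K := by
    rw [Lmap_eq]
    exact h1
  rw [h3] at h2
  rw [h2]
  simp only [Fintype.card_sum]
  ring

/-- The vector of a point. -/
def pv (x y : P → ℝ) (i : P) : Fin 3 → ℝ := ![x i, y i, 1]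
/-- The covector of a line. -/
def lv (A C : F → ℝ) (j : F) : Fin 3 → ℝ := ![A j, 1, C j]

/-- The first-order deformation given by an infinitesimal projective transformation. -/
def Phi (x y : P → ℝ) (A C : F → ℝ) :
    Matrix (Fin 3) (Fin 3) ℝ →ₗ[ℝ] ((P ⊕ P) ⊕ (F ⊕ F) → ℝ) where
  toFun M := fun c => match c with
    | .inl (.inl i) => (M.mulVec (pv x y i)) 0 - x i * (M.mulVec (pv x y i)) 2
    | .inl (.inr i) => (M.mulVec (pv x y i)) 1 - y i * (M.mulVec (pv x y i)) 2
    | .inr (.inl j) => - (M.vecMul (lv A C j)) 0 + A j * (M.vecMul (lv A C j)) 1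
    | .inr (.inr j) => - (M.vecMul (lv A C j)) 2 + C j * (M.vecMul (lv A C j)) 1
  map_add' M N := by
    ext c
    rcases c with (i | i) | (j | j)
    · simp only [Matrix.add_mulVec, Pi.add_apply]; ring
    · simp only [Matrix.add_mulVec, Pi.add_apply]; ring
    · simp only [Matrix.vecMul_add, Pi.add_apply]; ring
    · simp only [Matrix.vecMul_add, Pi.add_apply]; ring
  map_smul' r M := by
    ext c
    rcases c with (i | i) | (j | j)
    · simp only [Matrix.smul_mulVec, Pi.smul_apply, smul_eq_mul, RingHom.id_apply]; ring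
    · simp only [Matrix.smul_mulVec, Pi.smul_apply, smul_eq_mul, RingHom.id_apply]; ring
    · simp only [Matrix.vecMul_smul, Pi.smul_apply, smul_eq_mul, RingHom.id_apply]; ring
    · simp only [Matrix.vecMul_smul, Pi.smul_apply, smul_eq_mul, RingHom.id_apply]; ring

theorem Phi_mem {x y : P → ℝ} {A C : F → ℝ} {p : K → P} {f : K → F}
    (h : ∀ k, A (f k) * x (p k) + y (p k) + C (f k) = 0) (M : Matrix (Fin 3) (Fin 3) ℝ) :
    Lmap x A p f (Phi x y A C M) = 0 := by
  ext k
  have hk := h k
  simp only [Lmap, Phi, LinearMap.coe_mk, AddHom.coe_mk, Pi.zero_apply, Matrix.mulVec,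
    Matrix.vecMul, dotProduct, Fin.sum_univ_three, pv, lv, Matrix.cons_val_zero,
    Matrix.cons_val_one, Matrix.cons_val, mul_one, one_mul]
  linear_combination (-(M 2 0 * x (p k) + M 2 1 * y (p k) + M 2 2) +
    (A (f k) * M 0 1 + M 1 1 + C (f k) * M 2 1)) * hk

/-- The main lemma: with `2|P| + 2|F| - 6` incidences, there is an infinitesimal projective
transformation with three different eigenvalues at three given non-collinear points that fixes all
points and lines. -/
theorem exists_M {x y : P → ℝ} {A C : F → ℝ} {p : K → P} {f : K → F}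
    (hG : Good p f x y A C) (hc : Fintype.card K + 6 = 2 * Fintype.card P + 2 * Fintype.card F)
    (t : Fin 3 → P) (ht : (Matrix.of fun i => pv x y (t i)).det ≠ 0) (μ : Fin 3 → ℝ) :
    ∃ M : Matrix (Fin 3) (Fin 3) ℝ, (∀ i, M.mulVec (pv x y i) = (M.mulVec (pv x y i)) 2 • pv x y i) ∧
      (∀ j, M.vecMul (lv A C j) = (M.vecMul (lv A C j)) 1 • lv A C j) ∧
      ∀ s, (M.mulVec (pv x y (t s))) 2 = μ s := by
  set Ψ := (Phi x y A C).codRestrict (LinearMap.ker (Lmap x A p f)) (fun M => by
    rw [LinearMap.mem_ker]; exact Phi_mem hG.inc M) with hΨ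
  have h6 : Module.finrank ℝ (LinearMap.ker (Lmap x A p f)) = 6 := by
    have := finrank_ker x A p f hG.ind
    omega
  have h9 := LinearMap.finrank_range_add_finrank_ker Ψ
  have h9' : Module.finrank ℝ (Matrix (Fin 3) (Fin 3) ℝ) = 9 := by
    rw [Module.finrank_matrix]; simp
  have hr : Module.finrank ℝ (LinearMap.range Ψ) ≤ 6 := by
    rw [← h6]; exact Submodule.finrank_le _
  have hk : 3 ≤ Module.finrank ℝ (LinearMap.ker Ψ) := by omega
  have hker : ∀ M ∈ LinearMap.ker Ψ,
      (∀ i, M.mulVec (pv x y i) = (M.mulVec (pv x y i)) 2 • pv x y i) ∧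
      (∀ j, M.vecMul (lv A C j) = (M.vecMul (lv A C j)) 1 • lv A C j) := by
    intro M hM
    rw [LinearMap.mem_ker] at hM
    have hM' : Phi x y A C M = 0 := congrArg Subtype.val hM
    constructor
    · intro i
      have h1 := congrFun hM' (.inl (.inl i))
      have h2 := congrFun hM' (.inl (.inr i))
      simp only [Phi, LinearMap.coe_mk, AddHom.coe_mk, Pi.zero_apply] at h1 h2
      ext s
      fin_cases s
      · simp [pv] at h1 ⊢; linarith
      · simp [pv] at h2 ⊢; linarith
      · simp [pv]
    · intro j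
      have h1 := congrFun hM' (.inr (.inl j))
      have h2 := congrFun hM' (.inr (.inr j))
      simp only [Phi, LinearMap.coe_mk, AddHom.coe_mk, Pi.zero_apply] at h1 h2
      ext s
      fin_cases s
      · simp [lv] at h1 ⊢; linarith
      · simp [lv]
      · simp [lv] at h2 ⊢; linarith
  -- the map to the eigenvalues
  let Θ : LinearMap.ker Ψ →ₗ[ℝ] (Fin 3 → ℝ) :=
    { toFun := fun M s => (M.1.mulVec (pv x y (t s))) 2
      map_add' := by
        intro M N; ext s
        simp [Matrix.add_mulVec]
      map_smul' := by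
        intro r M; ext s
        simp [Matrix.smul_mulVec] }
  have hinj : Function.Injective Θ := by
    rw [← LinearMap.ker_eq_bot, LinearMap.ker_eq_bot']
    intro M hM
    have h1 : ∀ s, M.1.mulVec (pv x y (t s)) = 0 := by
      intro s
      rw [(hker M.1 M.2).1 (t s)]
      have : (M.1.mulVec (pv x y (t s))) 2 = 0 := congrFun hM s
      rw [this, zero_smul]
    have h2 : (Matrix.of fun i => pv x y (t i)) * M.1.transpose = 0 := by
      ext a b
      have := congrFun (h1 a) b
      simp only [Matrix.mulVec, dotProduct, Pi.zero_apply] at this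
      rw [Matrix.mul_apply, Matrix.zero_apply, ← this]
      refine Finset.sum_congr rfl fun c _ => ?_
      rw [Matrix.of_apply, Matrix.transpose_apply, mul_comm]
    have h3 : M.1.transpose = 0 := by
      have hu : IsUnit (Matrix.of fun i => pv x y (t i)) := by
        rw [Matrix.isUnit_iff_isUnit_det]; exact isUnit_iff_ne_zero.2 ht
      exact (hu.mul_right_eq_zero).1 h2
    apply Subtype.ext
    have := congrArg Matrix.transpose h3
    simpa using this
  have hsurj : Function.Surjective Θ := by
    have hle : Module.finrank ℝ (LinearMap.ker Ψ) = Module.finrank ℝ (Fin 3 → ℝ) := by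
      apply le_antisymm
      · exact LinearMap.finrank_le_finrank_of_injective hinj
      · rw [Module.finrank_fintype_fun_eq_card, Fintype.card_fin]
        exact hk
    exact (LinearMap.injective_iff_surjective_of_finrank_eq_finrank hle).1 hinj
  obtain ⟨M, hM⟩ := hsurj μ
  exact ⟨M.1, (hker M.1 M.2).1, (hker M.1 M.2).2, fun s => congrFun hM s⟩

theorem det_pv (x y : P → ℝ) (t : Fin 3 → P) : (Matrix.of fun i => pv x y (t i)).det =
    x (t 0) * (y (t 1) - y (t 2)) - y (t 0) * (x (t 1) - x (t 2)) +
      (x (t 1) * y (t 2) - y (t 1) * x (t 2)) := by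
  rw [Matrix.det_fin_three]
  simp [pv]
  ring

theorem exists_triple {x y : P → ℝ}
    (h : ¬ ∃ a b c : ℝ, (a ≠ 0 ∨ b ≠ 0) ∧ ∀ i, a * x i + b * y i + c = 0) :
    ∃ t : Fin 3 → P, (Matrix.of fun i => pv x y (t i)).det ≠ 0 := by
  by_contra hcon
  push Not at hcon
  apply h
  rcases isEmpty_or_nonempty P with hP | ⟨⟨i0⟩⟩
  · exact ⟨1, 0, 0, Or.inl one_ne_zero, fun i => (hP.false i).elim⟩
  by_cases h1 : ∀ i, x i = x i0
  · exact ⟨1, 0, - x i0, Or.inl one_ne_zero, fun i => by rw [h1 i]; ring⟩
  push Not at h1
  obtain ⟨i1, hi1⟩ := h1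
  refine ⟨y i1 - y i0, x i0 - x i1, -((y i1 - y i0) * x i0 + (x i0 - x i1) * y i0),
    Or.inr (sub_ne_zero.2 (Ne.symm hi1)), fun i => ?_⟩
  have := hcon ![i0, i1, i]
  rw [det_pv] at this
  simp at this
  linarith

/-- The realization uses only three locations of points and only the three lines joining them. -/
theorem exists_loc {x y : P → ℝ} {A C : F → ℝ} {p : K → P} {f : K → F}
    (hG : Good p f x y A C) (hc : Fintype.card K + 6 = 2 * Fintype.card P + 2 * Fintype.card F) :
    ∃ (t : Fin 3 → P) (loc : P → Fin 3) (miss : F → Fin 3),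
      (Matrix.of fun i => pv x y (t i)).det ≠ 0 ∧
      (∀ i, x i = x (t (loc i)) ∧ y i = y (t (loc i))) ∧
      (∀ j s, s ≠ miss j → A j * x (t s) + y (t s) + C j = 0) := by
  obtain ⟨t, ht⟩ := exists_triple hG.pts
  obtain ⟨M, hMp, hMl, hM⟩ := exists_M hG hc t ht ![0, 1, 2]
  set μ : Fin 3 → ℝ := ![0, 1, 2] with hμ
  have hμi : ∀ a b, a ≠ b → μ a ≠ μ b := by
    intro a b hab
    simp only [hμ]
    fin_cases a <;> fin_cases b <;> first | exact absurd rfl hab | norm_num
  set B : Matrix (Fin 3) (Fin 3) ℝ := Matrix.of fun i => pv x y (t i) with hB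
  have hBu : IsUnit B := by
    rw [Matrix.isUnit_iff_isUnit_det]; exact isUnit_iff_ne_zero.2 ht
  have hMt : ∀ s, M.mulVec (pv x y (t s)) = μ s • pv x y (t s) := by
    intro s
    rw [hMp (t s), hM s]
  have hpt : ∀ i, ∃ s, x i = x (t s) ∧ y i = y (t s) := by
    intro i
    -- coordinates in the basis
    obtain ⟨α, hα⟩ : ∃ α : Fin 3 → ℝ, Matrix.vecMul α B = pv x y i := by
      refine ⟨Matrix.vecMul (pv x y i) B⁻¹, ?_⟩
      rw [Matrix.vecMul_vecMul, Matrix.nonsing_inv_mul B ((Matrix.isUnit_iff_isUnit_det _).1 hBu),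
        Matrix.vecMul_one]
    have hα' : ∀ c, pv x y i c = ∑ s, α s * pv x y (t s) c := by
      intro c
      rw [← hα]
      rfl
    set m := (M.mulVec (pv x y i)) 2 with hm
    have h1 : ∀ c, ∑ s, (α s * (μ s - m)) * pv x y (t s) c = 0 := by
      intro c
      have e1 := congrFun (hMp i) c
      rw [← hm] at e1
      have e2 : M.mulVec (pv x y i) c = ∑ s, α s * (μ s * pv x y (t s) c) := by
        have : pv x y i = ∑ s, α s • pv x y (t s) := by
          ext c; rw [hα' c]; simp
        rw [this, Matrix.mulVec_sum]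
        simp only [Matrix.mulVec_smul, hMt, Finset.sum_apply, Pi.smul_apply, smul_eq_mul]
      rw [e2, Pi.smul_apply, smul_eq_mul, hα' c, Finset.mul_sum] at e1
      rw [← sub_eq_zero, ← Finset.sum_sub_distrib] at e1
      rw [← e1]
      refine Finset.sum_congr rfl fun s _ => ?_
      ring
    have h2 : (fun s => α s * (μ s - m)) = 0 := by
      have h3 : Matrix.vecMul (fun s => α s * (μ s - m)) B = 0 := by
        ext c
        exact h1 c
      have := congrArg (fun w => Matrix.vecMul w B⁻¹) h3
      simp only [Matrix.vecMul_vecMul, Matrix.mul_nonsing_inv B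
        ((Matrix.isUnit_iff_isUnit_det _).1 hBu), Matrix.vecMul_one, Matrix.zero_vecMul] at this
      exact this
    have hsum : ∑ s, α s = 1 := by
      have := hα' 2
      simp only [pv, Matrix.cons_val, mul_one] at this
      exact this.symm
    obtain ⟨s, hs⟩ : ∃ s, α s ≠ 0 := by
      by_contra hcon
      push Not at hcon
      simp [hcon] at hsum
    have hms : m = μ s := by
      have := congrFun h2 s
      simp only [Pi.zero_apply, mul_eq_zero] at this
      rcases this with h | h
      · exact absurd h hs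
      · linarith
    have hoth : ∀ s', s' ≠ s → α s' = 0 := by
      intro s' hs'
      have := congrFun h2 s'
      simp only [Pi.zero_apply, mul_eq_zero] at this
      rcases this with h | h
      · exact h
      · exact absurd (by linarith) (hμi s' s hs')
    have hαs : α s = 1 := by
      rw [← hsum]
      rw [Finset.sum_eq_single s (fun b _ hb => hoth b hb) (by simp)]
    refine ⟨s, ?_, ?_⟩
    · have := hα' 0
      rw [Finset.sum_eq_single s (fun b _ hb => by rw [hoth b hb, zero_mul]) (by simp), hαs] at this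
      simpa [pv] using this
    · have := hα' 1
      rw [Finset.sum_eq_single s (fun b _ hb => by rw [hoth b hb, zero_mul]) (by simp), hαs] at this
      simpa [pv] using this
  have hln : ∀ j, ∃ s0, ∀ s, s ≠ s0 → A j * x (t s) + y (t s) + C j = 0 := by
    intro j
    have h1 : ∀ s, (μ s - (M.vecMul (lv A C j)) 1) * (A j * x (t s) + y (t s) + C j) = 0 := by
      intro s
      have e1 : dotProduct (lv A C j) (M.mulVec (pv x y (t s))) =
          dotProduct (M.vecMul (lv A C j)) (pv x y (t s)) := Matrix.dotProduct_mulVec _ _ _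
      have e0 : dotProduct (lv A C j) (pv x y (t s)) = A j * x (t s) + y (t s) + C j := by
        simp [dotProduct, Fin.sum_univ_three, lv, pv]
      rw [hMt s, hMl j, dotProduct_smul, smul_dotProduct, e0] at e1
      simp only [smul_eq_mul] at e1
      linear_combination e1
    by_cases h2 : ∃ s0, A j * x (t s0) + y (t s0) + C j ≠ 0
    · obtain ⟨s0, hs0⟩ := h2
      refine ⟨s0, fun s hs => ?_⟩
      have a1 := h1 s0
      have a2 := h1 s
      rcases mul_eq_zero.1 a1 with h | h
      · rcases mul_eq_zero.1 a2 with h' | h'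
        · exact absurd (by linarith) (hμi s s0 hs)
        · exact h'
      · exact absurd h hs0
    · push Not at h2
      exact ⟨0, fun s _ => h2 s⟩
  choose loc hloc using hpt
  choose miss hmiss using hln
  exact ⟨t, loc, miss, ht, hloc, hmiss⟩

theorem no_four {x : P → ℝ} {A : F → ℝ} {p : K → P} {f : K → F}
    (h : ∀ g : K → ℝ, Stress x A p f g → ∀ k, g k = 0) (k11 k12 k21 k22 : K)
    (h1 : p k11 = p k12) (h2 : p k21 = p k22) (h3 : f k11 = f k21) (h4 : f k12 = f k22)
    (hu : p k11 ≠ p k21) (hj : f k11 ≠ f k12) (hx : x (p k11) = x (p k21))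
    (hA : A (f k11) = A (f k12)) : False := by
  classical
  have n1 : k11 ≠ k12 := fun e => hj (by rw [e])
  have n2 : k11 ≠ k21 := fun e => hu (by rw [e])
  have n3 : k11 ≠ k22 := fun e => hu (by rw [h2, e])
  set g : K → ℝ := Pi.single k11 1 + Pi.single k22 1 - Pi.single k12 1 - Pi.single k21 1 with hg
  have key : ∀ (φ : K → ℝ), ∑ k, g k * φ k = φ k11 + φ k22 - φ k12 - φ k21 := by
    intro φ
    simp only [hg, Pi.add_apply, Pi.sub_apply, add_mul, sub_mul, Finset.sum_add_distrib,
      Finset.sum_sub_distrib, Pi.single_apply, ite_mul, one_mul, zero_mul, Finset.sum_ite_eq',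
      Finset.mem_univ, if_true]
  have hS : Stress x A p f g := by
    refine ⟨fun i => ?_, fun i => ?_, fun j => ?_, fun j => ?_⟩
    · have := key (fun k => if p k = i then A (f k) else 0)
      simp only [mul_ite, mul_zero] at this
      rw [this, ← h1, ← h2, ← h4, ← h3, hA]
      split_ifs <;> ring
    · have := key (fun k => if p k = i then 1 else 0)
      simp only [mul_ite, mul_zero, mul_one] at this
      rw [this, ← h1, ← h2]
      split_ifs <;> ring
    · have := key (fun k => if f k = j then x (p k) else 0)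
      simp only [mul_ite, mul_zero] at this
      rw [this, ← h3, ← h4, ← h1, ← h2, hx]
      split_ifs <;> ring
    · have := key (fun k => if f k = j then 1 else 0)
      simp only [mul_ite, mul_zero, mul_one] at this
      rw [this, ← h3, ← h4]
      split_ifs <;> ring
  have := h g hS k11
  simp only [hg, Pi.add_apply, Pi.sub_apply, Pi.single_apply, if_true, if_neg n1, if_neg n2,
    if_neg n3] at this
  norm_num at this

/-- Two points joined by three lines are at different locations. -/
theorem three_lines {x y : P → ℝ} {A C : F → ℝ} {p : K → P} {f : K → F}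
    (hG : Good p f x y A C) {t : Fin 3 → P} {loc : P → Fin 3} {miss : F → Fin 3}
    (ht : (Matrix.of fun i => pv x y (t i)).det ≠ 0)
    (hloc : ∀ i, x i = x (t (loc i)) ∧ y i = y (t (loc i)))
    (hmiss : ∀ j s, s ≠ miss j → A j * x (t s) + y (t s) + C j = 0)
    (u v : P) (huv : u ≠ v) (k k' : Fin 3 → K) (hk : ∀ q, p (k q) = u) (hk' : ∀ q, p (k' q) = v)
    (hf : ∀ q, f (k q) = f (k' q)) (hd : ∀ q q', q ≠ q' → f (k q) ≠ f (k q')) :
    loc u ≠ loc v := by
  intro heq
  rw [det_pv] at ht
  have h1 : ∀ q, miss (f (k q)) ≠ loc u := by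
    intro q hq
    have e0 := hG.inc (k q)
    rw [hk q, (hloc u).1, (hloc u).2] at e0
    have e : ∀ s, A (f (k q)) * x (t s) + y (t s) + C (f (k q)) = 0 := by
      intro s
      by_cases hs : s = loc u
      · rw [hs]; exact e0
      · exact hmiss _ s (by rw [hq]; exact hs)
    have e1 := e 0
    have e2 := e 1
    have e3 := e 2
    apply ht
    linear_combination (x (t 1) - x (t 2)) * (-e1) + (x (t 0) - x (t 2)) * e2 -
      (x (t 0) - x (t 1)) * e3
  obtain ⟨q, q', hqq, hm⟩ : ∃ q q' : Fin 3, q ≠ q' ∧ miss (f (k q)) = miss (f (k q')) := by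
    by_contra hcon
    push Not at hcon
    have i1 := hcon 0 1 (by decide)
    have i2 := hcon 0 2 (by decide)
    have i3 := hcon 1 2 (by decide)
    have j1 := h1 0
    have j2 := h1 1
    have j3 := h1 2
    clear h1 heq hcon
    generalize miss (f (k 0)) = a at *
    generalize miss (f (k 1)) = b at *
    generalize miss (f (k 2)) = c at *
    generalize loc u = d at *
    revert a b c d
    decide
  -- two different corners on both lines
  obtain ⟨s, s', hs, hs1, hs2⟩ : ∃ s s' : Fin 3, s ≠ s' ∧ s ≠ miss (f (k q)) ∧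
      s' ≠ miss (f (k q)) := by
    generalize miss (f (k q)) = a
    revert a
    decide
  have a1 := hmiss (f (k q)) s hs1
  have a2 := hmiss (f (k q)) s' hs2
  have a3 := hmiss (f (k q')) s (by rw [← hm]; exact hs1)
  have a4 := hmiss (f (k q')) s' (by rw [← hm]; exact hs2)
  have hA : A (f (k q)) = A (f (k q')) := by
    by_contra hne
    have hxx : x (t s) = x (t s') := by
      have : (A (f (k q)) - A (f (k q'))) * (x (t s) - x (t s')) = 0 := by
        linear_combination a1 - a2 - a3 + a4
      rcases mul_eq_zero.1 this with h | h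
      · exact absurd (sub_eq_zero.1 h) hne
      · exact sub_eq_zero.1 h
    have hyy : y (t s) = y (t s') := by
      rw [hxx] at a1
      linarith
    apply ht
    clear a1 a2 a3 a4 hs1 hs2
    fin_cases s <;> fin_cases s' <;> first | exact absurd rfl hs | skip
    all_goals simp only [Fin.zero_eta, Fin.mk_one, Fin.reduceFinMk] at hxx hyy
    all_goals rw [hxx, hyy]; ring
  refine no_four hG.ind (k q) (k q') (k' q) (k' q') ?_ ?_ (hf q) (hf q') ?_ (hd q q' hqq) ?_ hA
  · rw [hk, hk]
  · rw [hk', hk']
  · rw [hk, hk']; exact huv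
  · rw [hk, hk', (hloc u).1, (hloc v).1, heq]

end Pool.Agent.IncInd
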