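import Pool.Agent.Lib_MP_5661ce_lc.Color

/-!
# Reading a formula, and the reduction in polynomial time
-/

set_option linter.unusedSectionVars false

namespace Pool.Agent.IncInd

open Pool.Agent.PT81 Polynomial
open Pool.Agent.IsoImp (Fml)

noncomputable section

/-- The state of the reader: bits of a name, stack of positions, gates found. -/
abbrev St := List Bool × (List ℕ × List Gate)

def step (a : IsoImp.Sym × ℕ) (s : St) : St :=
  match a.1 with
  | .bit b => (b :: s.1, s.2)
  | .var => ([], (a.2 :: s.2.1, (0, a.2, a.2, a.2, s.1) :: s.2.2))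
  | .neg => match s.2.1 with
    | [] => s
    | i :: l => ([], (a.2 :: l, (1, a.2, i, a.2, []) :: s.2.2))
  | .and => match s.2.1 with
    | [] => s
    | i :: l => match l with
      | [] => s
      | j :: l => ([], (a.2 :: l, (2, a.2, i, j, []) :: s.2.2))
  | .or => match s.2.1 with
    | [] => s
    | i :: l => match l with
      | [] => s
      | j :: l => ([], (a.2 :: l, (3, a.2, i, j, []) :: s.2.2))

def scan (w : List IsoImp.Sym) (p : ℕ) : St := (w.zipIdx p).foldr step ([], ([], []))

theorem scan_cons (a : IsoImp.Sym) (w : List IsoImp.Sym) (p : ℕ) :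
    scan (a :: w) p = step (a, p) (scan w (p + 1)) := by
  simp [scan, List.zipIdx_cons]

theorem scan_bits (x : List Bool) (w : List IsoImp.Sym) (p : ℕ) :
    scan (x.map IsoImp.Sym.bit ++ w) p =
      (x ++ (scan w (p + x.length)).1, (scan w (p + x.length)).2) := by
  induction x generalizing p with
  | nil => simp
  | cons b x ih =>
    rw [List.map_cons, List.cons_append, scan_cons, ih]
    have e : p + 1 + x.length = p + (b :: x).length := by simp; ring
    rw [e]
    rfl

theorem scan_code (f : Fml Name) (w : List IsoImp.Sym) (p : ℕ)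
    (hw : (scan w (p + f.code.length)).1 = []) :
    scan (f.code ++ w) p = ([], (p :: (scan w (p + f.code.length)).2.1,
      gates f p ++ (scan w (p + f.code.length)).2.2)) := by
  induction f generalizing w p with
  | var x =>
    have e : (Fml.var x : Fml Name).code = IsoImp.Sym.var :: x.map IsoImp.Sym.bit := rfl
    rw [e] at hw ⊢
    have e2 : p + (IsoImp.Sym.var :: x.map IsoImp.Sym.bit).length = p + 1 + x.length := by
      simp; ring
    rw [e2] at hw ⊢
    rw [List.cons_append, scan_cons, scan_bits, hw]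
    simp [step, gates]
  | neg f ih =>
    have e : (Fml.neg f : Fml Name).code = IsoImp.Sym.neg :: f.code := rfl
    rw [e] at hw ⊢
    have e2 : p + (IsoImp.Sym.neg :: f.code).length = p + 1 + f.code.length := by
      simp; ring
    rw [e2] at hw ⊢
    rw [List.cons_append, scan_cons, ih _ _ hw]
    simp [step, gates]
  | and f g ihf ihg =>
    have e : (Fml.and f g : Fml Name).code = IsoImp.Sym.and :: (f.code ++ g.code) := rfl
    rw [e] at hw ⊢
    have e2 : p + (IsoImp.Sym.and :: (f.code ++ g.code)).length =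
        p + 1 + f.code.length + g.code.length := by
      simp; ring
    rw [e2] at hw ⊢
    have hg := ihg _ _ hw
    rw [List.cons_append, scan_cons, List.append_assoc, ihf _ _ (by rw [hg]), hg]
    simp [step, gates]
  | or f g ihf ihg =>
    have e : (Fml.or f g : Fml Name).code = IsoImp.Sym.or :: (f.code ++ g.code) := rfl
    rw [e] at hw ⊢
    have e2 : p + (IsoImp.Sym.or :: (f.code ++ g.code)).length =
        p + 1 + f.code.length + g.code.length := by
      simp; ring
    rw [e2] at hw ⊢
    have hg := ihg _ _ hw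
    rw [List.cons_append, scan_cons, List.append_assoc, ihf _ _ (by rw [hg]), hg]
    simp [step, gates]

/-- The gates of a string. -/
def gatesOf (w : List IsoImp.Sym) : List Gate := (scan w 0).2.2

theorem gatesOf_code (f : Fml Name) : gatesOf f.code = gates f 0 := by
  have h := scan_code f [] 0 rfl
  rw [List.append_nil] at h
  rw [gatesOf, h]
  simp [scan]

/-! ### Polynomial time -/

variable {E : Env} {γ α β : Type} [Enc E γ] [Enc E α] [Enc E β]

instance : Enc E Sym := Pool.Agent.IsoImp.finEnc E Sym

theorem zipIdx_eq {α : Type} (l : List α) (k : ℕ) : l.zipIdx k =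
    (List.range l.length).flatMap (fun i => match l[i]? with
      | none => []
      | some a => [(a, i + k)]) := by
  induction l generalizing k with
  | nil => rfl
  | cons a l ih =>
    rw [List.zipIdx_cons, List.length_cons, List.range_succ_eq_map, List.flatMap_cons,
      List.flatMap_map, ih]
    simp only [List.getElem?_cons_zero, List.getElem?_cons_succ, Nat.succ_eq_add_one]
    have : ∀ i, i + 1 + k = i + (k + 1) := fun i => by ring
    simp only [this, Nat.zero_add, List.singleton_append]

theorem Poly.zipIdx {f : γ → List α} (hf : Poly E f) :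
    Poly E (fun c => (f c).zipIdx) := by
  have h1 : Poly E (fun c => (List.range (f c).length).flatMap (fun i =>
      match (f c)[i]? with
      | none => []
      | some a => [(a, i)])) := by
    refine Poly.flatMap (g := fun p : γ × ℕ => match (f p.1)[p.2]? with
      | none => []
      | some a => [(a, p.2)]) hf.length.range ?_
    exact Poly.optCases (g := fun _ => []) (h := fun q : (γ × ℕ) × α => [(q.2, q.1.2)])
      (Pool.Agent.IsoImp.Poly.getElem? (hf.comp Poly.fst) Poly.snd) (Poly.const [])
      (Poly.cons (Poly.pair Poly.snd (Poly.snd.comp Poly.fst)) (Poly.const []))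
  refine h1.congr fun c => ?_
  rw [zipIdx_eq]
  rfl

/-- The step function as a function of a symbol, a position and a state. -/
theorem poly_step : Poly E (fun z : (IsoImp.Sym × ℕ) × St => step z.1 z.2) := by
  have hp : Poly E (fun c : ℕ × St => c.1) := Poly.fst
  have hb : Poly E (fun c : ℕ × St => c.2.1) := Poly.fst.comp Poly.snd
  have hs : Poly E (fun c : ℕ × St => c.2.2.1) := Poly.fst.comp (Poly.snd.comp Poly.snd)
  have ho : Poly E (fun c : ℕ × St => c.2.2.2) := Poly.snd.comp (Poly.snd.comp Poly.snd)
  have h : Poly E (fun z : (ℕ × St) × IsoImp.Sym => step (z.2, z.1.1) z.1.2) := by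
    refine Poly.finCase fun a => ?_
    cases a with
    | bit b =>
      show Poly E (fun c : ℕ × St => (b :: c.2.1, c.2.2))
      exact Poly.pair (Poly.cons (Poly.const b) hb) (Poly.snd.comp Poly.snd)
    | var =>
      show Poly E (fun c : ℕ × St => (([] : List Bool), (c.1 :: c.2.2.1,
        ((0 : Fin 4), c.1, c.1, c.1, c.2.1) :: c.2.2.2)))
      exact Poly.pair (Poly.const []) (Poly.pair (Poly.cons hp hs) (Poly.cons
        (Poly.pair (Poly.const 0) (Poly.pair hp (Poly.pair hp (Poly.pair hp hb)))) ho))
    | neg =>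
      refine (Poly.listCases (f := fun c : ℕ × St => c.2.2.1) (g := fun c => c.2)
        (h := fun q : (ℕ × St) × (ℕ × List ℕ) => (([] : List Bool), (q.1.1 :: q.2.2,
          ((1 : Fin 4), q.1.1, q.2.1, q.1.1, ([] : List Bool)) :: q.1.2.2.2))) hs Poly.snd ?_).congr
        fun c => ?_
      · have h1 : Poly E (fun q : (ℕ × St) × (ℕ × List ℕ) => q.1.1) := hp.comp Poly.fst
        have h2 : Poly E (fun q : (ℕ × St) × (ℕ × List ℕ) => q.2.1) := Poly.fst.comp Poly.snd
        have h3 : Poly E (fun q : (ℕ × St) × (ℕ × List ℕ) => q.2.2) := Poly.snd.comp Poly.snd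
        have h4 : Poly E (fun q : (ℕ × St) × (ℕ × List ℕ) => q.1.2.2.2) := ho.comp Poly.fst
        exact Poly.pair (Poly.const []) (Poly.pair (Poly.cons h1 h3) (Poly.cons
          (Poly.pair (Poly.const 1) (Poly.pair h1 (Poly.pair h2 (Poly.pair h1 (Poly.const []))))) h4))
      · simp only [step]
        cases c.2.2.1 <;> rfl
    | and =>
      refine (Poly.listCases (f := fun c : ℕ × St => c.2.2.1) (g := fun c => c.2)
        (h := fun q : (ℕ × St) × (ℕ × List ℕ) => match q.2.2 with
          | [] => q.1.2
          | j :: l => (([] : List Bool), (q.1.1 :: l,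
            ((2 : Fin 4), q.1.1, q.2.1, j, ([] : List Bool)) :: q.1.2.2.2))) hs Poly.snd ?_).congr
        fun c => ?_
      · refine (Poly.listCases (f := fun q : (ℕ × St) × (ℕ × List ℕ) => q.2.2)
          (g := fun q => q.1.2) (h := fun r : ((ℕ × St) × (ℕ × List ℕ)) × (ℕ × List ℕ) =>
          (([] : List Bool), (r.1.1.1 :: r.2.2,
            ((2 : Fin 4), r.1.1.1, r.1.2.1, r.2.1, ([] : List Bool)) :: r.1.1.2.2.2)))
          (Poly.snd.comp Poly.snd) (Poly.snd.comp Poly.fst) ?_).congr fun q => by
            cases q.2.2 <;> rfl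
        have h1 : Poly E (fun r : ((ℕ × St) × (ℕ × List ℕ)) × (ℕ × List ℕ) => r.1.1.1) :=
          hp.comp (Poly.fst.comp Poly.fst)
        have h2 : Poly E (fun r : ((ℕ × St) × (ℕ × List ℕ)) × (ℕ × List ℕ) => r.1.2.1) :=
          Poly.fst.comp (Poly.snd.comp Poly.fst)
        have h3 : Poly E (fun r : ((ℕ × St) × (ℕ × List ℕ)) × (ℕ × List ℕ) => r.2.1) :=
          Poly.fst.comp Poly.snd
        have h4 : Poly E (fun r : ((ℕ × St) × (ℕ × List ℕ)) × (ℕ × List ℕ) => r.2.2) :=
          Poly.snd.comp Poly.snd
        have h5 : Poly E (fun r : ((ℕ × St) × (ℕ × List ℕ)) × (ℕ × List ℕ) => r.1.1.2.2.2) :=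
          ho.comp (Poly.fst.comp Poly.fst)
        exact Poly.pair (Poly.const []) (Poly.pair (Poly.cons h1 h4) (Poly.cons
          (Poly.pair (Poly.const 2) (Poly.pair h1 (Poly.pair h2 (Poly.pair h3 (Poly.const []))))) h5))
      · simp only [step]
        cases c.2.2.1 with
        | nil => rfl
        | cons i l => cases l <;> rfl
    | or =>
      refine (Poly.listCases (f := fun c : ℕ × St => c.2.2.1) (g := fun c => c.2)
        (h := fun q : (ℕ × St) × (ℕ × List ℕ) => match q.2.2 with
          | [] => q.1.2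
          | j :: l => (([] : List Bool), (q.1.1 :: l,
            ((3 : Fin 4), q.1.1, q.2.1, j, ([] : List Bool)) :: q.1.2.2.2))) hs Poly.snd ?_).congr
        fun c => ?_
      · refine (Poly.listCases (f := fun q : (ℕ × St) × (ℕ × List ℕ) => q.2.2)
          (g := fun q => q.1.2) (h := fun r : ((ℕ × St) × (ℕ × List ℕ)) × (ℕ × List ℕ) =>
          (([] : List Bool), (r.1.1.1 :: r.2.2,
            ((3 : Fin 4), r.1.1.1, r.1.2.1, r.2.1, ([] : List Bool)) :: r.1.1.2.2.2)))
          (Poly.snd.comp Poly.snd) (Poly.snd.comp Poly.fst) ?_).congr fun q => by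
            cases q.2.2 <;> rfl
        have h1 : Poly E (fun r : ((ℕ × St) × (ℕ × List ℕ)) × (ℕ × List ℕ) => r.1.1.1) :=
          hp.comp (Poly.fst.comp Poly.fst)
        have h2 : Poly E (fun r : ((ℕ × St) × (ℕ × List ℕ)) × (ℕ × List ℕ) => r.1.2.1) :=
          Poly.fst.comp (Poly.snd.comp Poly.fst)
        have h3 : Poly E (fun r : ((ℕ × St) × (ℕ × List ℕ)) × (ℕ × List ℕ) => r.2.1) :=
          Poly.fst.comp Poly.snd
        have h4 : Poly E (fun r : ((ℕ × St) × (ℕ × List ℕ)) × (ℕ × List ℕ) => r.2.2) :=
          Poly.snd.comp Poly.snd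
        have h5 : Poly E (fun r : ((ℕ × St) × (ℕ × List ℕ)) × (ℕ × List ℕ) => r.1.1.2.2.2) :=
          ho.comp (Poly.fst.comp Poly.fst)
        exact Poly.pair (Poly.const []) (Poly.pair (Poly.cons h1 h4) (Poly.cons
          (Poly.pair (Poly.const 3) (Poly.pair h1 (Poly.pair h2 (Poly.pair h3 (Poly.const []))))) h5))
      · simp only [step]
        cases c.2.2.1 with
        | nil => rfl
        | cons i l => cases l <;> rfl
  have h2 := h.comp (Poly.pair (Poly.pair (Poly.snd.comp Poly.fst) Poly.snd)
    (Poly.fst.comp Poly.fst) : Poly E (fun z : (IsoImp.Sym × ℕ) × St => ((z.1.2, z.2), z.1.1)))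
  exact h2

theorem esz_step : ∃ K : ℕ, ∀ (a : IsoImp.Sym × ℕ) (s : St),
    esz E (step a s) ≤ esz E s + (K + 10 * esz E a) := by
  obtain ⟨K, hK⟩ : ∃ K : ℕ, (∀ k : Fin 4, esz E k ≤ K) ∧ (∀ b : Bool, esz E b ≤ K) := by
    refine ⟨3 + ∑ k : Fin 4, esz E k, fun k => ?_, fun b => ?_⟩
    · have := Finset.single_le_sum (f := fun k : Fin 4 => esz E k) (fun _ _ => Nat.zero_le _)
        (Finset.mem_univ k)
      exact this.trans (by omega)
    · have := esz_bool (E := E) b
      omega
  refine ⟨K + 100, fun a s => ?_⟩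
  obtain ⟨a, p⟩ := a
  obtain ⟨b, l, o⟩ := s
  have h0 := hK.1 0
  have h1 := hK.1 1
  have h2 := hK.1 2
  have h3 := hK.1 3
  cases a with
  | bit c =>
    have := hK.2 c
    simp only [step, esz_prod, esz_cons]
    omega
  | var =>
    simp only [step, esz_prod, esz_cons, esz_nil]
    have := esz_pos (E := E) b
    omega
  | neg =>
    cases l with
    | nil =>
      simp only [step, esz_prod]
      omega
    | cons i l =>
      simp only [step, esz_prod, esz_cons, esz_nil]
      have := esz_pos (E := E) b
      omega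
  | and =>
    cases l with
    | nil =>
      simp only [step, esz_prod]
      omega
    | cons i l =>
      cases l with
      | nil =>
        simp only [step, esz_prod]
        omega
      | cons j l =>
        simp only [step, esz_prod, esz_cons, esz_nil]
        have := esz_pos (E := E) b
        omega
  | or =>
    cases l with
    | nil =>
      simp only [step, esz_prod]
      omega
    | cons i l =>
      cases l with
      | nil =>
        simp only [step, esz_prod]
        omega
      | cons j l =>
        simp only [step, esz_prod, esz_cons, esz_nil]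
        have := esz_pos (E := E) b
        omega

theorem poly_gatesOf {f : γ → List IsoImp.Sym} (hf : Poly E f) :
    Poly E (fun c => gatesOf (f c)) := by
  have hz := Poly.zipIdx hf
  obtain ⟨pf, hpf⟩ := hz.bound
  obtain ⟨K, hK⟩ := esz_step (E := E)
  have h := Poly.foldrAdd (f := fun c => (f c).zipIdx) (b := fun _ => (([], ([], [])) : St))
    (g := fun x : γ × ((IsoImp.Sym × ℕ) × St) => step x.2.1 x.2.2) hz (Poly.const _)
    (poly_step.comp Poly.snd) (C K + 10 * pf) (by
      intro c a ha b
      have h1 := mem_esz_le (E := E) _ a ha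
      have h2 := hpf c
      have h3 := hK a b
      simp only [eval_add, eval_mul, eval_C, eval_ofNat]
      omega)
  exact (Poly.snd.comp (Poly.snd.comp h)).congr fun c => rfl

theorem Poly.constMap {A : Type} (l : List A) {g : A → γ → β} (h : ∀ a, Poly E (g a)) :
    Poly E (fun c => l.map fun a => g a c) := by
  induction l with
  | nil => exact Poly.const _
  | cons a l ih => exact Poly.cons (h a) ih

theorem poly_loc (s : Fin 3 ⊕ Fin 7) {g : γ → Gate} (hg : Poly E g) :
    Poly E (fun c => loc (g c) s) := by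
  rcases s with i | i
  · exact Poly.inl (Poly.const i)
  · fin_cases i
    · exact Poly.inr (Poly.inl (Poly.fst.comp (Poly.snd.comp hg)))
    · exact Poly.inr (Poly.inl (Poly.fst.comp (Poly.snd.comp (Poly.snd.comp hg))))
    · exact Poly.inr (Poly.inl (Poly.fst.comp (Poly.snd.comp (Poly.snd.comp (Poly.snd.comp hg)))))
    · exact Poly.inr (Poly.inr (Poly.inl (Poly.snd.comp (Poly.snd.comp (Poly.snd.comp
        (Poly.snd.comp hg))))))
    · exact Poly.inr (Poly.inr (Poly.inr (Poly.pair (Poly.const 0) hg)))
    · exact Poly.inr (Poly.inr (Poly.inr (Poly.pair (Poly.const 1) hg)))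
    · exact Poly.inr (Poly.inr (Poly.inr (Poly.pair (Poly.const 2) hg)))

theorem poly_VsG {G : γ → List Gate} (hG : Poly E G) : Poly E (fun c => VsG (G c)) := by
  refine Poly.cons (Poly.inl (Poly.const 0)) (Poly.flatMap (g := fun p : γ × Gate => vertsG p.2)
    hG ?_)
  have hg : Poly E (fun p : γ × Gate => p.2) := Poly.snd
  exact Poly.cons (Poly.inl (Poly.fst.comp (Poly.snd.comp hg)))
    (Poly.cons (Poly.inl (Poly.fst.comp (Poly.snd.comp (Poly.snd.comp hg))))
    (Poly.cons (Poly.inl (Poly.fst.comp (Poly.snd.comp (Poly.snd.comp (Poly.snd.comp hg)))))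
    (Poly.cons (Poly.inr (Poly.inl (Poly.snd.comp (Poly.snd.comp (Poly.snd.comp
        (Poly.snd.comp hg))))))
    (Poly.cons (Poly.inr (Poly.inr (Poly.pair (Poly.const 0) hg)))
    (Poly.cons (Poly.inr (Poly.inr (Poly.pair (Poly.const 1) hg)))
    (Poly.cons (Poly.inr (Poly.inr (Poly.pair (Poly.const 2) hg))) (Poly.const [])))))))

theorem poly_edgesG : Poly E edgesG := by
  have h : Poly E (fun z : Gate × Fin 4 => (lE z.2).map fun e => (loc z.1 e.1, loc z.1 e.2)) :=
    Poly.finCase fun k => Poly.constMap (lE k)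
      (g := fun e (c : Gate) => (loc c e.1, loc c e.2))
      fun e => Poly.pair (poly_loc e.1 Poly.id) (poly_loc e.2 Poly.id)
  exact h.comp (Poly.pair Poly.id Poly.fst : Poly E (fun g : Gate => (g, g.1)))

theorem poly_EsG {G : γ → List Gate} (hG : Poly E G) : Poly E (fun c => EsG (G c)) :=
  Poly.append (Poly.const _) (Poly.flatMap (g := fun p : γ × Gate => edgesG p.2) hG
    (poly_edgesG.comp Poly.snd))

theorem poly_gpt (i : Fin 18) {v : γ → W} (hv : Poly E v) : Poly E (fun c => gpt (v c) i) := by
  simp only [gpt]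
  cases gp i with
  | inl s => exact Poly.const _
  | inr s => exact Poly.inr (Poly.pair hv (Poly.const s))

theorem poly_gln (i : Fin 18) {v : γ → W} (hv : Poly E v) : Poly E (fun c => gln (v c) i) := by
  simp only [gln]
  cases gl i with
  | inl s => exact Poly.const _
  | inr s => exact Poly.inr (Poly.inl (Poly.pair hv (Poly.const s)))

theorem poly_ptT {t : γ → T} (ht : Poly E t) : Poly E (fun c => ptT (t c)) := by
  refine (Poly.sumCases (g := fun p => (Sum.inl p.2 : PN))
    (h := fun p => (Sum.inr (p.2, 0) : PN)) ht (Poly.inl Poly.snd)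
    (Poly.inr (Poly.pair Poly.snd (Poly.const 0)))).congr fun c => ?_
  simp only [ptT]
  cases t c <;> rfl

theorem poly_incCode {Vs : γ → List W} {Es : γ → List (T × T)} (hV : Poly E Vs)
    (hE : Poly E Es) : Poly E (fun c => (mkInc (Vs c) (Es c)).code) := by
  have hb : Poly E (fun z : γ × Bool => Sym.bit z.2) := Poly.comp₁ Sym.bit Poly.snd
  have h1 : Poly E (fun c => dd (rawPts (Vs c))) := by
    refine Poly.dd (Poly.append (Poly.const _) (Poly.flatMap
      (g := fun p : γ × W => (List.finRange 5).map fun i => Nm.nm (.inr (p.2, i) : PN)) hV ?_))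
    exact Poly.constMap _ (g := fun i (p : γ × W) => Nm.nm (.inr (p.2, i) : PN))
      fun i => Poly.nm (Poly.inr (Poly.pair Poly.snd (Poly.const i)))
  have h2 : Poly E (fun c => dd (rawLns (Vs c) (Es c))) := by
    refine Poly.dd (Poly.append (Poly.const _) (Poly.append (Poly.flatMap
      (g := fun p : γ × W => (List.finRange 4).map fun i => Nm.nm (.inr (.inl (p.2, i)) : FN)) hV ?_)
      (Poly.flatMap (g := fun p : γ × (T × T) => (List.finRange 3).map fun i =>
        Nm.nm (.inr (.inr (p.2, i)) : FN)) hE ?_)))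
    · exact Poly.constMap _ (g := fun i (p : γ × W) => Nm.nm (.inr (.inl (p.2, i)) : FN))
        fun i => Poly.nm (Poly.inr (Poly.inl (Poly.pair Poly.snd (Poly.const i))))
    · exact Poly.constMap _ (g := fun i (p : γ × (T × T)) => Nm.nm (.inr (.inr (p.2, i)) : FN))
        fun i => Poly.nm (Poly.inr (Poly.inr (Poly.pair Poly.snd (Poly.const i))))
  have h3 : Poly E (fun c => dd (rawInc (Vs c) (Es c))) := by
    refine Poly.dd (Poly.append (Poly.const _) (Poly.append (Poly.flatMap
      (g := fun p : γ × W => (List.finRange 18).map fun i =>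
        (Nm.nm (gpt p.2 i), Nm.nm (gln p.2 i))) hV ?_)
      (Poly.flatMap (g := fun p : γ × (T × T) => (List.finRange 3).flatMap fun q =>
        [(Nm.nm (ptT p.2.1), Nm.nm (.inr (.inr (p.2, q)) : FN)),
          (Nm.nm (ptT p.2.2), Nm.nm (.inr (.inr (p.2, q)) : FN))]) hE ?_)))
    · exact Poly.constMap _ (g := fun i (p : γ × W) => (Nm.nm (gpt p.2 i), Nm.nm (gln p.2 i)))
        fun i => Poly.pair (Poly.nm (poly_gpt i Poly.snd)) (Poly.nm (poly_gln i Poly.snd))
    · refine Poly.flatMap (f := fun _ => List.finRange 3) (g := fun z : (γ × (T × T)) × Fin 3 =>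
        [(Nm.nm (ptT z.1.2.1), Nm.nm (.inr (.inr (z.1.2, z.2)) : FN)),
          (Nm.nm (ptT z.1.2.2), Nm.nm (.inr (.inr (z.1.2, z.2)) : FN))]) (Poly.const _) ?_
      have k1 : Poly E (fun z : (γ × (T × T)) × Fin 3 => Nm.nm (.inr (.inr (z.1.2, z.2)) : FN)) :=
        Poly.nm (Poly.inr (Poly.inr (Poly.pair (Poly.snd.comp Poly.fst) Poly.snd)))
      exact Poly.cons (Poly.pair (Poly.nm (poly_ptT (Poly.fst.comp (Poly.snd.comp Poly.fst)))) k1)
        (Poly.cons (Poly.pair (Poly.nm (poly_ptT (Poly.snd.comp (Poly.snd.comp Poly.fst)))) k1)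
          (Poly.const []))
  refine Poly.append (f := fun c => (dd (rawPts (Vs c))).flatMap _) ?_ (Poly.append
    (f := fun c => (dd (rawLns (Vs c) (Es c))).flatMap _)
    (g := fun c => (dd (rawInc (Vs c) (Es c))).flatMap _) ?_ ?_)
  · exact Poly.flatMap (g := fun p : γ × Name => Sym.pt :: p.2.map Sym.bit) h1
      (Poly.cons (Poly.const _) (Poly.map (g := fun z : (γ × Name) × Bool => Sym.bit z.2) Poly.snd
        (Poly.comp₁ Sym.bit Poly.snd)))
  · exact Poly.flatMap (g := fun p : γ × Name => Sym.ln :: p.2.map Sym.bit) h2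
      (Poly.cons (Poly.const _) (Poly.map (g := fun z : (γ × Name) × Bool => Sym.bit z.2) Poly.snd
        (Poly.comp₁ Sym.bit Poly.snd)))
  · exact Poly.flatMap (g := fun p : γ × (Name × Name) =>
      Sym.ic :: (p.2.1.map Sym.bit ++ Sym.sep :: p.2.2.map Sym.bit)) h3
      (Poly.cons (Poly.const _) (Poly.append
        (Poly.map (g := fun z : (γ × (Name × Name)) × Bool => Sym.bit z.2)
          (Poly.fst.comp Poly.snd) (Poly.comp₁ Sym.bit Poly.snd))
        (Poly.cons (Poly.const _) (Poly.map (g := fun z : (γ × (Name × Name)) × Bool =>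
          Sym.bit z.2) (Poly.snd.comp Poly.snd) (Poly.comp₁ Sym.bit Poly.snd)))))

/-- From the code of a formula to the code of its incidence structure, in polynomial time. -/
theorem poly_red {f : γ → List IsoImp.Sym} (hf : Poly E f) :
    Poly E (fun c => (incOf (gatesOf (f c))).code) :=
  poly_incCode (poly_VsG (poly_gatesOf hf)) (poly_EsG (poly_gatesOf hf))

end

end Pool.Agent.IncInd
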