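import Pool.Agent.Lib_MP_5661ce_lc.Red

/-!
# From formulas to graphs
-/

set_option linter.unusedSectionVars false
set_option linter.unusedSimpArgs false

namespace Pool.Agent.IncInd

open Pool.Agent.PT81
open Pool.Agent.IsoImp (Fml)

/-- The gates of a formula that starts at position `p` of a string. A gate is a tuple of its kind
(0: variable, 1: negation, 2: conjunction, 3: disjunction), its position, the positions of its
inputs, and the name of the variable. -/
def gates : Fml Name → ℕ → List Gate
  | .var x, p => [(0, p, p, p, x)]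
  | .neg f, p => (1, p, p + 1, p, []) :: gates f (p + 1)
  | .and f g, p => (2, p, p + 1, p + 1 + f.code.length, []) ::
      (gates f (p + 1) ++ gates g (p + 1 + f.code.length))
  | .or f g, p => (3, p, p + 1, p + 1 + f.code.length, []) ::
      (gates f (p + 1) ++ gates g (p + 1 + f.code.length))

/-- Local terminals of a gate: `inl` the palette, `inr 0` the gate, `inr 1`, `inr 2` its inputs,
`inr 3` the variable, the others auxiliary. -/
def loc (g : Gate) : Fin 3 ⊕ Fin 7 → T
  | .inl i => .inl i
  | .inr 0 => .inr (.inl g.2.1)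
  | .inr 1 => .inr (.inl g.2.2.1)
  | .inr 2 => .inr (.inl g.2.2.2.1)
  | .inr 3 => .inr (.inr (.inl g.2.2.2.2))
  | .inr 4 => .inr (.inr (.inr (0, g)))
  | .inr 5 => .inr (.inr (.inr (1, g)))
  | .inr 6 => .inr (.inr (.inr (2, g)))

/-- Edges of a gate, by its kind. -/
def lE : Fin 4 → List ((Fin 3 ⊕ Fin 7) × (Fin 3 ⊕ Fin 7)) :=
  ![[(.inr 0, .inl 0), (.inr 3, .inl 0), (.inr 4, .inl 0), (.inr 4, .inr 0), (.inr 4, .inr 3)],
    [(.inr 0, .inl 0), (.inr 0, .inr 1)],
    [(.inr 0, .inl 0), (.inr 1, .inr 4), (.inr 0, .inr 4), (.inl 2, .inr 5), (.inr 2, .inr 5),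
      (.inr 0, .inr 5), (.inr 4, .inr 5), (.inl 1, .inr 6), (.inr 2, .inr 6), (.inr 5, .inr 6)],
    [(.inr 0, .inl 0), (.inr 1, .inr 4), (.inr 0, .inr 4), (.inl 1, .inr 5), (.inr 2, .inr 5),
      (.inr 0, .inr 5), (.inr 4, .inr 5), (.inl 2, .inr 6), (.inr 2, .inr 6), (.inr 5, .inr 6)]]

def vertsG (g : Gate) : List W :=
  [.inl g.2.1, .inl g.2.2.1, .inl g.2.2.2.1, .inr (.inl g.2.2.2.2), .inr (.inr (0, g)),
    .inr (.inr (1, g)), .inr (.inr (2, g))]

def edgesG (g : Gate) : List (T × T) := (lE g.1).map fun e => (loc g e.1, loc g e.2)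

def VsG (G : List Gate) : List W := .inl 0 :: G.flatMap vertsG

def EsG (G : List Gate) : List (T × T) :=
  [(.inl 0, .inl 1), (.inl 0, .inl 2), (.inl 1, .inl 2), (.inr (.inl 0), .inl 2)] ++
    G.flatMap edgesG

theorem loc_mem (g : Gate) (s : Fin 3 ⊕ Fin 7) (v : W) (h : loc g s = .inr v) : v ∈ vertsG g := by
  rcases s with i | i
  · simp [loc] at h
  · fin_cases i <;> simp only [loc, Sum.inr.injEq] at h <;> subst h <;> simp [vertsG]

theorem EsG_mem (G : List Gate) : ∀ e ∈ EsG G, ∀ v, (e.1 = .inr v ∨ e.2 = .inr v) → v ∈ VsG G := by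
  intro e he v hv
  rw [EsG, List.mem_append] at he
  rcases he with he | he
  · simp only [List.mem_cons, List.not_mem_nil, or_false] at he
    rcases he with rfl | rfl | rfl | rfl <;> simp [VsG] at hv ⊢
    exact Or.inl hv.symm
  · obtain ⟨g, hg, he⟩ := List.mem_flatMap.1 he
    obtain ⟨z, -, rfl⟩ := List.mem_map.1 he
    rw [VsG]
    refine List.mem_cons_of_mem _ (List.mem_flatMap.2 ⟨g, hg, ?_⟩)
    rcases hv with hv | hv
    · exact loc_mem g _ v hv
    · exact loc_mem g _ v hv

theorem EsG_pal (G : List Gate) : ∀ i j : Fin 3, i < j → ((.inl i, .inl j) : T × T) ∈ EsG G := by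
  intro i j hij
  rw [EsG, List.mem_append]
  left
  fin_cases i <;> fin_cases j <;> simp at hij ⊢

/-- No gate of a formula has itself as an input (except for variables). -/
def GoodGate (g : Gate) : Prop := g.1 = 0 ∨ g.2.1 ≠ g.2.2.1

theorem gates_good (f : Fml Name) (p : ℕ) : ∀ g ∈ gates f p, GoodGate g := by
  induction f generalizing p with
  | var x =>
    intro g hg
    simp only [gates, List.mem_singleton] at hg
    subst hg
    exact Or.inl rfl
  | neg f ih =>
    intro g hg
    simp only [gates, List.mem_cons] at hg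
    rcases hg with rfl | hg
    · exact Or.inr (by simp)
    · exact ih _ g hg
  | and f f' ih ih' =>
    intro g hg
    simp only [gates, List.mem_cons, List.mem_append] at hg
    rcases hg with rfl | hg | hg
    · exact Or.inr (by simp)
    · exact ih _ g hg
    · exact ih' _ g hg
  | or f f' ih ih' =>
    intro g hg
    simp only [gates, List.mem_cons, List.mem_append] at hg
    rcases hg with rfl | hg | hg
    · exact Or.inr (by simp)
    · exact ih _ g hg
    · exact ih' _ g hg

theorem EsG_loop (G : List Gate) (hG : ∀ g ∈ G, GoodGate g) : ∀ e ∈ EsG G, e.1 ≠ e.2 := by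
  intro e he
  rw [EsG, List.mem_append] at he
  rcases he with he | he
  · simp only [List.mem_cons, List.not_mem_nil, or_false] at he
    rcases he with rfl | rfl | rfl | rfl <;> simp
  · obtain ⟨g, hg, he⟩ := List.mem_flatMap.1 he
    obtain ⟨z, hz, rfl⟩ := List.mem_map.1 he
    have h1 := hG g hg
    obtain ⟨k, c, a, b, x⟩ := g
    simp only at hz
    fin_cases k
    · simp only [lE, Fin.zero_eta, Matrix.cons_val_zero, List.mem_cons, List.not_mem_nil,
        or_false] at hz
      rcases hz with rfl | rfl | rfl | rfl | rfl <;> simp [loc]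
    · simp only [lE, Fin.mk_one, Matrix.cons_val_one, Matrix.cons_val_zero, List.mem_cons,
        List.not_mem_nil, or_false] at hz
      have h2 : c ≠ a := by
        rcases h1 with h | h
        · simp at h
        · exact h
      rcases hz with rfl | rfl
      · simp [loc]
      · simp [loc, h2]
    · simp only [lE, Fin.reduceFinMk, Matrix.cons_val, List.mem_cons, List.not_mem_nil,
        or_false] at hz
      rcases hz with rfl | rfl | rfl | rfl | rfl | rfl | rfl | rfl | rfl | rfl <;> simp [loc]
    · simp only [lE, Fin.reduceFinMk, Matrix.cons_val, List.mem_cons, List.not_mem_nil,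
        or_false] at hz
      rcases hz with rfl | rfl | rfl | rfl | rfl | rfl | rfl | rfl | rfl | rfl <;> simp [loc]

/-- Colour of a truth value. -/
def tc (b : Bool) : Fin 3 := if b then 1 else 2

theorem d_var : ∀ cc cx x : Fin 3, cc ≠ 0 → cx ≠ 0 → x ≠ 0 → x ≠ cc → x ≠ cx → cc = cx := by
  decide
theorem d_neg : ∀ cc : Fin 3, ∀ a : Bool, cc ≠ 0 → cc ≠ tc a → cc = tc (!a) := by decide
theorem d_and : ∀ cc x y z : Fin 3, ∀ a b : Bool, cc ≠ 0 → tc a ≠ x → cc ≠ x → 2 ≠ y → tc b ≠ y →
    cc ≠ y → x ≠ y → 1 ≠ z → tc b ≠ z → y ≠ z → cc = tc (a && b) := by decide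
theorem d_or : ∀ cc x y z : Fin 3, ∀ a b : Bool, cc ≠ 0 → tc a ≠ x → cc ≠ x → 1 ≠ y → tc b ≠ y →
    cc ≠ y → x ≠ y → 2 ≠ z → tc b ≠ z → y ≠ z → cc = tc (a || b) := by decide

theorem e_and : ∀ a b : Bool, ∃ s : Fin 3 → Fin 3, tc a ≠ s 0 ∧ tc (a && b) ≠ s 0 ∧ 2 ≠ s 1 ∧
    tc b ≠ s 1 ∧ tc (a && b) ≠ s 1 ∧ s 0 ≠ s 1 ∧ 1 ≠ s 2 ∧ tc b ≠ s 2 ∧ s 1 ≠ s 2 := by decide
theorem e_or : ∀ a b : Bool, ∃ s : Fin 3 → Fin 3, tc a ≠ s 0 ∧ tc (a || b) ≠ s 0 ∧ 1 ≠ s 1 ∧
    tc b ≠ s 1 ∧ tc (a || b) ≠ s 1 ∧ s 0 ≠ s 1 ∧ 2 ≠ s 2 ∧ tc b ≠ s 2 ∧ s 1 ≠ s 2 := by decide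

/-- Properness of a colouring on an edge. -/
def Pr (c : W → Fin 3) (e : T × T) : Prop := (Sum.elim id c e.1 : Fin 3) ≠ Sum.elim id c e.2

theorem value (c : W → Fin 3) (f : Fml Name) (p : ℕ)
    (h : ∀ g ∈ gates f p, ∀ e ∈ edgesG g, Pr c e) :
    c (.inl p) = tc (f.eval fun x => decide (c (.inr (.inl x)) = 1)) := by
  induction f generalizing p with
  | var x =>
    have h1 := h _ (List.mem_singleton.2 rfl)
    have k1 := h1 (.inr (.inl p), .inl 0) (by simp [edgesG, lE, loc])
    have k2 := h1 (.inr (.inr (.inl x)), .inl 0) (by simp [edgesG, lE, loc])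
    have k3 := h1 (.inr (.inr (.inr (0, (0, p, p, p, x)))), .inl 0) (by simp [edgesG, lE, loc])
    have k4 := h1 (.inr (.inr (.inr (0, (0, p, p, p, x)))), .inr (.inl p))
      (by simp [edgesG, lE, loc])
    have k5 := h1 (.inr (.inr (.inr (0, (0, p, p, p, x)))), .inr (.inr (.inl x)))
      (by simp [edgesG, lE, loc])
    have := d_var _ _ _ k1 k2 k3 k4 k5
    change c (.inl p) = c (.inr (.inl x)) at this
    have k2' : c (.inr (.inl x)) ≠ 0 := k2
    show c (.inl p) = tc (decide (c (.inr (.inl x)) = 1))
    rw [this]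
    generalize c (.inr (.inl x)) = z at k2' ⊢
    clear this k1 k2 k3 k4 k5 h1 h
    revert z
    decide
  | neg f ih =>
    have h1 := h _ (List.mem_cons_self ..)
    have k1 := h1 (.inr (.inl p), .inl 0) (by simp [edgesG, lE, loc])
    have k2 := h1 (.inr (.inl p), .inr (.inl (p + 1))) (by simp [edgesG, lE, loc])
    have h2 := ih (p + 1) fun g hg => h g (List.mem_cons_of_mem _ hg)
    change c (.inl p) ≠ c (.inl (p + 1)) at k2
    rw [h2] at k2
    exact d_neg _ _ k1 k2
  | and f f' ih ih' =>
    have h1 := h _ (List.mem_cons_self ..)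
    set g : Gate := (2, p, p + 1, p + 1 + f.code.length, []) with hg
    have k1 := h1 (.inr (.inl p), .inl 0) (by simp [hg, edgesG, lE, loc])
    have k2 := h1 (.inr (.inl (p + 1)), .inr (.inr (.inr (0, g)))) (by simp [hg, edgesG, lE, loc])
    have k3 := h1 (.inr (.inl p), .inr (.inr (.inr (0, g)))) (by simp [hg, edgesG, lE, loc])
    have k4 := h1 (.inl 2, .inr (.inr (.inr (1, g)))) (by simp [hg, edgesG, lE, loc])
    have k5 := h1 (.inr (.inl (p + 1 + f.code.length)), .inr (.inr (.inr (1, g))))
      (by simp [hg, edgesG, lE, loc])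
    have k6 := h1 (.inr (.inl p), .inr (.inr (.inr (1, g)))) (by simp [hg, edgesG, lE, loc])
    have k7 := h1 (.inr (.inr (.inr (0, g))), .inr (.inr (.inr (1, g))))
      (by simp [hg, edgesG, lE, loc])
    have k8 := h1 (.inl 1, .inr (.inr (.inr (2, g)))) (by simp [hg, edgesG, lE, loc])
    have k9 := h1 (.inr (.inl (p + 1 + f.code.length)), .inr (.inr (.inr (2, g))))
      (by simp [hg, edgesG, lE, loc])
    have k10 := h1 (.inr (.inr (.inr (1, g))), .inr (.inr (.inr (2, g))))
      (by simp [hg, edgesG, lE, loc])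
    have h2 := ih (p + 1) fun g hg => h g (List.mem_cons_of_mem _ (List.mem_append_left _ hg))
    have h3 := ih' (p + 1 + f.code.length) fun g hg =>
      h g (List.mem_cons_of_mem _ (List.mem_append_right _ hg))
    simp only [Pr, Sum.elim_inl, Sum.elim_inr, id] at k1 k2 k3 k4 k5 k6 k7 k8 k9 k10
    rw [h2] at k2
    rw [h3] at k5 k9
    exact d_and _ _ _ _ _ _ k1 k2 k3 k4 k5 k6 k7 k8 k9 k10
  | or f f' ih ih' =>
    have h1 := h _ (List.mem_cons_self ..)
    set g : Gate := (3, p, p + 1, p + 1 + f.code.length, []) with hg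
    have k1 := h1 (.inr (.inl p), .inl 0) (by simp [hg, edgesG, lE, loc])
    have k2 := h1 (.inr (.inl (p + 1)), .inr (.inr (.inr (0, g)))) (by simp [hg, edgesG, lE, loc])
    have k3 := h1 (.inr (.inl p), .inr (.inr (.inr (0, g)))) (by simp [hg, edgesG, lE, loc])
    have k4 := h1 (.inl 1, .inr (.inr (.inr (1, g)))) (by simp [hg, edgesG, lE, loc])
    have k5 := h1 (.inr (.inl (p + 1 + f.code.length)), .inr (.inr (.inr (1, g))))
      (by simp [hg, edgesG, lE, loc])
    have k6 := h1 (.inr (.inl p), .inr (.inr (.inr (1, g)))) (by simp [hg, edgesG, lE, loc])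
    have k7 := h1 (.inr (.inr (.inr (0, g))), .inr (.inr (.inr (1, g))))
      (by simp [hg, edgesG, lE, loc])
    have k8 := h1 (.inl 2, .inr (.inr (.inr (2, g)))) (by simp [hg, edgesG, lE, loc])
    have k9 := h1 (.inr (.inl (p + 1 + f.code.length)), .inr (.inr (.inr (2, g))))
      (by simp [hg, edgesG, lE, loc])
    have k10 := h1 (.inr (.inr (.inr (1, g))), .inr (.inr (.inr (2, g))))
      (by simp [hg, edgesG, lE, loc])
    have h2 := ih (p + 1) fun g hg => h g (List.mem_cons_of_mem _ (List.mem_append_left _ hg))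
    have h3 := ih' (p + 1 + f.code.length) fun g hg =>
      h g (List.mem_cons_of_mem _ (List.mem_append_right _ hg))
    simp only [Pr, Sum.elim_inl, Sum.elim_inr, id] at k1 k2 k3 k4 k5 k6 k7 k8 k9 k10
    rw [h2] at k2
    rw [h3] at k5 k9
    exact d_or _ _ _ _ _ _ k1 k2 k3 k4 k5 k6 k7 k8 k9 k10

/-- Truth value of the node at position `q` of a formula starting at position `p`. -/
def vl (α : Name → Bool) : Fml Name → ℕ → ℕ → Bool
  | .var x, _, _ => α x
  | .neg f, p, q => if q = p then !(f.eval α) else vl α f (p + 1) q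
  | .and f g, p, q => if q = p then (f.eval α && g.eval α) else
      if q < p + 1 + f.code.length then vl α f (p + 1) q else vl α g (p + 1 + f.code.length) q
  | .or f g, p, q => if q = p then (f.eval α || g.eval α) else
      if q < p + 1 + f.code.length then vl α f (p + 1) q else vl α g (p + 1 + f.code.length) q

theorem vl_self (α : Name → Bool) (f : Fml Name) (p : ℕ) : vl α f p p = f.eval α := by
  cases f <;> simp [vl, Fml.eval]

theorem code_pos (f : Fml Name) : 0 < f.code.length := by
  cases f <;> simp [Fml.code]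

/-- The gate `g` is satisfied by the values `v` and the assignment `α`. -/
def Sat (α : Name → Bool) (v : ℕ → Bool) (g : Gate) : Prop :=
  (g.1 = 0 → v g.2.1 = α g.2.2.2.2) ∧
  (g.1 = 1 → v g.2.1 = !(v g.2.2.1)) ∧
  (g.1 = 2 → v g.2.1 = (v g.2.2.1 && v g.2.2.2.1)) ∧
  (g.1 = 3 → v g.2.1 = (v g.2.2.1 || v g.2.2.2.1))

theorem gates_range (f : Fml Name) (p : ℕ) : ∀ g ∈ gates f p,
    (p ≤ g.2.1 ∧ g.2.1 < p + f.code.length) ∧ (p ≤ g.2.2.1 ∧ g.2.2.1 < p + f.code.length) ∧
      (p ≤ g.2.2.2.1 ∧ g.2.2.2.1 < p + f.code.length) := by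
  induction f generalizing p with
  | var x =>
    intro g hg
    simp only [gates, List.mem_singleton] at hg
    subst hg
    have := code_pos (.var x)
    simp only
    omega
  | neg f ih =>
    intro g hg
    simp only [gates, List.mem_cons] at hg
    have h1 := code_pos f
    have h2 : (Fml.neg f).code.length = f.code.length + 1 := by simp [Fml.code]
    rcases hg with rfl | hg
    · simp only
      omega
    · have := ih _ g hg
      omega
  | and f f' ih ih' =>
    intro g hg
    simp only [gates, List.mem_cons, List.mem_append] at hg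
    have h1 := code_pos f
    have h1' := code_pos f'
    have h2 : (Fml.and f f').code.length = f.code.length + f'.code.length + 1 := by
      simp [Fml.code]
    rcases hg with rfl | hg | hg
    · simp only
      omega
    · have := ih _ g hg
      omega
    · have := ih' _ g hg
      omega
  | or f f' ih ih' =>
    intro g hg
    simp only [gates, List.mem_cons, List.mem_append] at hg
    have h1 := code_pos f
    have h1' := code_pos f'
    have h2 : (Fml.or f f').code.length = f.code.length + f'.code.length + 1 := by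
      simp [Fml.code]
    rcases hg with rfl | hg | hg
    · simp only
      omega
    · have := ih _ g hg
      omega
    · have := ih' _ g hg
      omega

theorem Sat.congr {α : Name → Bool} {v v' : ℕ → Bool} {g : Gate} (h : Sat α v g)
    (h1 : v' g.2.1 = v g.2.1) (h2 : v' g.2.2.1 = v g.2.2.1) (h3 : v' g.2.2.2.1 = v g.2.2.2.1) :
    Sat α v' g := by
  unfold Sat
  rw [h1, h2, h3]
  exact h

theorem gates_sat (α : Name → Bool) (f : Fml Name) (p : ℕ) :
    ∀ g ∈ gates f p, Sat α (vl α f p) g := by
  induction f generalizing p with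
  | var x =>
    intro g hg
    simp only [gates, List.mem_singleton] at hg
    subst hg
    refine ⟨fun _ => rfl, fun h => ?_, fun h => ?_, fun h => ?_⟩ <;> simp at h
  | neg f ih =>
    intro g hg
    simp only [gates, List.mem_cons] at hg
    rcases hg with rfl | hg
    · refine ⟨fun h => ?_, fun _ => ?_, fun h => ?_, fun h => ?_⟩ <;> try simp at h
      have e1 : vl α (.neg f) p p = !(f.eval α) := by simp [vl]
      have e2 : vl α (.neg f) p (p + 1) = f.eval α := by simp [vl, vl_self]
      simp only
      rw [e1, e2]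
    · have hr := gates_range f (p + 1) g hg
      have key : ∀ q, p + 1 ≤ q → vl α (.neg f) p q = vl α f (p + 1) q := by
        intro q hq
        simp only [vl]
        rw [if_neg (by omega)]
      exact (ih _ g hg).congr (key _ (by omega)) (key _ (by omega)) (key _ (by omega))
  | and f f' ih ih' =>
    intro g hg
    simp only [gates, List.mem_cons, List.mem_append] at hg
    have h1 := code_pos f
    rcases hg with rfl | hg | hg
    · refine ⟨fun h => ?_, fun h => ?_, fun _ => ?_, fun h => ?_⟩ <;> try simp at h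
      have e1 : vl α (.and f f') p p = (f.eval α && f'.eval α) := by simp [vl]
      have e2 : vl α (.and f f') p (p + 1) = f.eval α := by
        simp only [vl]
        rw [if_neg (by omega), if_pos (by omega), vl_self]
      have e3 : vl α (.and f f') p (p + 1 + f.code.length) = f'.eval α := by
        simp only [vl]
        rw [if_neg (by omega), if_neg (by omega), vl_self]
      simp only
      rw [e1, e2, e3]
    · have hr := gates_range f (p + 1) g hg
      have key : ∀ q, p + 1 ≤ q → q < p + 1 + f.code.length →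
          vl α (.and f f') p q = vl α f (p + 1) q := by
        intro q hq hq'
        simp only [vl]
        rw [if_neg (by omega), if_pos hq']
      exact (ih _ g hg).congr (key _ (by omega) (by omega)) (key _ (by omega) (by omega))
        (key _ (by omega) (by omega))
    · have hr := gates_range f' (p + 1 + f.code.length) g hg
      have key : ∀ q, p + 1 + f.code.length ≤ q →
          vl α (.and f f') p q = vl α f' (p + 1 + f.code.length) q := by
        intro q hq
        simp only [vl]
        rw [if_neg (by omega), if_neg (by omega)]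
      exact (ih' _ g hg).congr (key _ (by omega)) (key _ (by omega)) (key _ (by omega))
  | or f f' ih ih' =>
    intro g hg
    simp only [gates, List.mem_cons, List.mem_append] at hg
    have h1 := code_pos f
    rcases hg with rfl | hg | hg
    · refine ⟨fun h => ?_, fun h => ?_, fun h => ?_, fun _ => ?_⟩ <;> try simp at h
      have e1 : vl α (.or f f') p p = (f.eval α || f'.eval α) := by simp [vl]
      have e2 : vl α (.or f f') p (p + 1) = f.eval α := by
        simp only [vl]
        rw [if_neg (by omega), if_pos (by omega), vl_self]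
      have e3 : vl α (.or f f') p (p + 1 + f.code.length) = f'.eval α := by
        simp only [vl]
        rw [if_neg (by omega), if_neg (by omega), vl_self]
      simp only
      rw [e1, e2, e3]
    · have hr := gates_range f (p + 1) g hg
      have key : ∀ q, p + 1 ≤ q → q < p + 1 + f.code.length →
          vl α (.or f f') p q = vl α f (p + 1) q := by
        intro q hq hq'
        simp only [vl]
        rw [if_neg (by omega), if_pos hq']
      exact (ih _ g hg).congr (key _ (by omega) (by omega)) (key _ (by omega) (by omega))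
        (key _ (by omega) (by omega))
    · have hr := gates_range f' (p + 1 + f.code.length) g hg
      have key : ∀ q, p + 1 + f.code.length ≤ q →
          vl α (.or f f') p q = vl α f' (p + 1 + f.code.length) q := by
        intro q hq
        simp only [vl]
        rw [if_neg (by omega), if_neg (by omega)]
      exact (ih' _ g hg).congr (key _ (by omega)) (key _ (by omega)) (key _ (by omega))

/-- Auxiliary colours. -/
noncomputable def aux (v : ℕ → Bool) (j : Fin 3) (g : Gate) : Fin 3 :=
  if g.1 = 0 then tc (!(v g.2.1)) else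
    if g.1 = 2 then (e_and (v g.2.2.1) (v g.2.2.2.1)).choose j else
      (e_or (v g.2.2.1) (v g.2.2.2.1)).choose j

theorem tc_ne : ∀ b : Bool, tc b ≠ 0 ∧ tc b ≠ tc (!b) ∧ tc (!b) ≠ tc b := by decide

theorem fin4 : ∀ k : Fin 4, k = 0 ∨ k = 1 ∨ k = 2 ∨ k = 3 := by decide

/-- A satisfying assignment gives a colouring. -/
theorem color_of_sat (α : Name → Bool) (v : ℕ → Bool) (G : List Gate)
    (hG : ∀ g ∈ G, Sat α v g) (h0 : v 0 = true) :
    ∃ c : W → Fin 3, ∀ e ∈ EsG G, Pr c e := by
  refine ⟨fun w => match w with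
    | .inl q => tc (v q)
    | .inr (.inl x) => tc (α x)
    | .inr (.inr (j, g)) => aux v j g, ?_⟩
  intro e he
  rw [EsG, List.mem_append] at he
  rcases he with he | he
  · simp only [List.mem_cons, List.not_mem_nil, or_false] at he
    rcases he with rfl | rfl | rfl | rfl <;> simp [Pr, h0, tc]
  · obtain ⟨g, hg, he⟩ := List.mem_flatMap.1 he
    obtain ⟨z, hz, rfl⟩ := List.mem_map.1 he
    obtain ⟨s0, s1, s2, s3⟩ := hG g hg
    obtain ⟨k, c, a, b, x⟩ := g
    simp only at hz s0 s1 s2 s3
    clear hg he
    rcases fin4 k with rfl | rfl | rfl | rfl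
    · have s0' := s0 rfl
      have hA : ∀ j, aux v j (0, c, a, b, x) = tc (!(v c)) := fun j => by simp [aux]
      have t1 := tc_ne (v c)
      have t2 := tc_ne (!(v c))
      simp only [lE, Matrix.cons_val_zero, List.mem_cons, List.not_mem_nil,
        or_false] at hz
      rcases hz with rfl | rfl | rfl | rfl | rfl
      · exact t1.1
      · show tc (α x) ≠ 0
        rw [← s0']
        exact t1.1
      · show aux v 0 _ ≠ 0
        rw [hA]
        exact t2.1
      · show aux v 0 _ ≠ tc (v c)
        rw [hA]
        exact t1.2.2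
      · show aux v 0 _ ≠ tc (α x)
        rw [hA, ← s0']
        exact t1.2.2
    · have s1' := s1 rfl
      simp only [lE, Matrix.cons_val_one, Matrix.cons_val_zero, List.mem_cons,
        List.not_mem_nil, or_false] at hz
      rcases hz with rfl | rfl
      · exact (tc_ne (v c)).1
      · show tc (v c) ≠ tc (v a)
        rw [s1']
        exact (tc_ne (v a)).2.2
    · have s2' := s2 rfl
      obtain ⟨s, hs⟩ : ∃ s, s = (e_and (v a) (v b)).choose := ⟨_, rfl⟩
      have hA : ∀ j, aux v j (2, c, a, b, x) = s j :=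
        fun j => by simp [aux, hs]
      have hsp := (e_and (v a) (v b)).choose_spec
      rw [← hs] at hsp
      obtain ⟨r1, r2, r3, r4, r5, r6, r7, r8, r9⟩ := hsp
      rw [← s2'] at r2 r5
      simp only [lE, Matrix.cons_val, List.mem_cons, List.not_mem_nil,
        or_false] at hz
      rcases hz with rfl | rfl | rfl | rfl | rfl | rfl | rfl | rfl | rfl | rfl
      · exact (tc_ne (v c)).1
      · simp only [Pr, loc, Sum.elim_inl, Sum.elim_inr, id, hA]
        exact r1
      · simp only [Pr, loc, Sum.elim_inl, Sum.elim_inr, id, hA]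
        exact r2
      · simp only [Pr, loc, Sum.elim_inl, Sum.elim_inr, id, hA]
        exact r3
      · simp only [Pr, loc, Sum.elim_inl, Sum.elim_inr, id, hA]
        exact r4
      · simp only [Pr, loc, Sum.elim_inl, Sum.elim_inr, id, hA]
        exact r5
      · simp only [Pr, loc, Sum.elim_inl, Sum.elim_inr, id, hA]
        exact r6
      · simp only [Pr, loc, Sum.elim_inl, Sum.elim_inr, id, hA]
        exact r7
      · simp only [Pr, loc, Sum.elim_inl, Sum.elim_inr, id, hA]
        exact r8
      · simp only [Pr, loc, Sum.elim_inl, Sum.elim_inr, id, hA]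
        exact r9
    · have s3' := s3 rfl
      obtain ⟨s, hs⟩ : ∃ s, s = (e_or (v a) (v b)).choose := ⟨_, rfl⟩
      have hA : ∀ j, aux v j (3, c, a, b, x) = s j :=
        fun j => by simp [aux, hs]
      have hsp := (e_or (v a) (v b)).choose_spec
      rw [← hs] at hsp
      obtain ⟨r1, r2, r3, r4, r5, r6, r7, r8, r9⟩ := hsp
      rw [← s3'] at r2 r5
      simp only [lE, Matrix.cons_val, List.mem_cons, List.not_mem_nil,
        or_false] at hz
      rcases hz with rfl | rfl | rfl | rfl | rfl | rfl | rfl | rfl | rfl | rfl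
      · exact (tc_ne (v c)).1
      · simp only [Pr, loc, Sum.elim_inl, Sum.elim_inr, id, hA]
        exact r1
      · simp only [Pr, loc, Sum.elim_inl, Sum.elim_inr, id, hA]
        exact r2
      · simp only [Pr, loc, Sum.elim_inl, Sum.elim_inr, id, hA]
        exact r3
      · simp only [Pr, loc, Sum.elim_inl, Sum.elim_inr, id, hA]
        exact r4
      · simp only [Pr, loc, Sum.elim_inl, Sum.elim_inr, id, hA]
        exact r5
      · simp only [Pr, loc, Sum.elim_inl, Sum.elim_inr, id, hA]
        exact r6
      · simp only [Pr, loc, Sum.elim_inl, Sum.elim_inr, id, hA]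
        exact r7
      · simp only [Pr, loc, Sum.elim_inl, Sum.elim_inr, id, hA]
        exact r8
      · simp only [Pr, loc, Sum.elim_inl, Sum.elim_inr, id, hA]
        exact r9

theorem color_iff (f : Fml Name) :
    (∃ c : W → Fin 3, ∀ e ∈ EsG (gates f 0), Pr c e) ↔ ∃ α : Name → Bool, f.eval α = true := by
  constructor
  · rintro ⟨c, hc⟩
    refine ⟨fun x => decide (c (.inr (.inl x)) = 1), ?_⟩
    have h1 := value c f 0 fun g hg e he => hc e (by
      rw [EsG, List.mem_append]
      exact Or.inr (List.mem_flatMap.2 ⟨g, hg, he⟩))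
    have h2 := hc (.inr (.inl 0), .inl 2) (by simp [EsG])
    have h3 : c (.inl 0) ≠ 2 := h2
    rw [h1] at h3
    by_contra hcon
    rw [Bool.not_eq_true] at hcon
    rw [hcon] at h3
    exact h3 rfl
  · rintro ⟨α, hα⟩
    exact color_of_sat α (vl α f 0) _ (gates_sat α f 0) (by rw [vl_self, hα])

/-- The incidence structure of a formula. -/
noncomputable def incOf (G : List Gate) : Inc := mkInc (VsG G) (EsG G)

theorem incOf_spec (f : Fml Name) : (incOf (gates f 0)).Valid ∧
    ((incOf (gates f 0)).Independent ↔ ∃ α : Name → Bool, f.eval α = true) := by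
  have h := mkInc_spec (EsG_mem (gates f 0)) (EsG_loop _ (gates_good f 0)) (EsG_pal _)
  exact ⟨h.1, h.2.trans (color_iff f)⟩

end Pool.Agent.IncInd
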