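import Pool.Agent.Lib_MP_5661ce_lc.Geom

/-!
# The incidence structure of a graph
-/

namespace Pool.Agent.IncInd

open Finset

set_option linter.unusedSectionVars false

/-! ### Peeling -/

section peel

variable {P F K : Type} [Fintype P] [Fintype F] [Fintype K] [DecidableEq P] [DecidableEq F]

theorem peel (cp : P → Fin 3) (cl : F → Fin 3) (p : K → P) (f : K → F)
    (xx sA : Fin 3 → ℝ) (hx : Function.Injective xx) (hA : Function.Injective sA)
    (hprop : ∀ k, cp (p k) ≠ cl (f k)) (ρ : K → ℕ)
    (hρ : ∀ k, (∀ k', p k' = p k → cl (f k') = cl (f k) → k' ≠ k → ρ k' < ρ k) ∨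
      (∀ k', f k' = f k → cp (p k') = cp (p k) → k' ≠ k → ρ k' < ρ k)) :
    ∀ g : K → ℝ, Stress (fun i => xx (cp i)) (fun j => sA (cl j)) p f g → ∀ k, g k = 0 := by
  classical
  intro g hg
  obtain ⟨h1, h2, h3, h4⟩ := hg
  have three : ∀ (a b c : Fin 3) (s : Fin 3 → ℝ) (z : Fin 3 → ℝ), Function.Injective z →
      a ≠ b → a ≠ c → b ≠ c → s a = 0 → s a + s b + s c = 0 →
      z a * s a + z b * s b + z c * s c = 0 → s b = 0 ∧ s c = 0 := by
    intro a b c s z hz hab hac hbc h0 hs hzs
    have hb : s c = - s b := by linarith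
    rw [h0, hb] at hzs
    have h5 : (z b - z c) * s b = 0 := by linear_combination hzs
    have h6 : z b - z c ≠ 0 := sub_ne_zero.2 (fun h => hbc (hz h))
    have h7 : s b = 0 := by
      rcases mul_eq_zero.1 h5 with h | h
      · exact absurd h h6
      · exact h
    exact ⟨h7, by rw [hb, h7, neg_zero]⟩
  have point : ∀ (i : P) (b : Fin 3), ∑ k, (if p k = i ∧ cl (f k) = b then g k else 0) = 0 := by
    intro i
    set s : Fin 3 → ℝ := fun b => ∑ k, (if p k = i ∧ cl (f k) = b then g k else 0) with hs
    have hsa : s (cp i) = 0 := by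
      apply Finset.sum_eq_zero
      intro k _
      rw [if_neg]
      rintro ⟨e1, e2⟩
      exact hprop k (by rw [e1, e2])
    have e1 : ∑ b, s b = 0 := by
      rw [← h2 i]
      simp only [hs]
      rw [Finset.sum_comm]
      refine Finset.sum_congr rfl fun k _ => ?_
      by_cases hk : p k = i
      · simp [hk]
      · simp [hk]
    have e2 : ∑ b, sA b * s b = 0 := by
      rw [← h1 i]
      simp only [hs, Finset.mul_sum]
      rw [Finset.sum_comm]
      refine Finset.sum_congr rfl fun k _ => ?_
      by_cases hk : p k = i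
      · simp [hk, mul_comm]
      · simp [hk]
    rw [Fin.sum_univ_three] at e1 e2
    intro b
    change s b = 0
    generalize cp i = a at hsa
    fin_cases a
    · obtain ⟨h5, h6⟩ := three 0 1 2 s sA hA (by decide) (by decide) (by decide) hsa e1 e2
      fin_cases b
      · exact hsa
      · exact h5
      · exact h6
    · obtain ⟨h5, h6⟩ := three 1 0 2 s sA hA (by decide) (by decide) (by decide) hsa
        (by linarith) (by linarith)
      fin_cases b
      · exact h5
      · exact hsa
      · exact h6
    · obtain ⟨h5, h6⟩ := three 2 0 1 s sA hA (by decide) (by decide) (by decide) hsa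
        (by linarith) (by linarith)
      fin_cases b
      · exact h5
      · exact h6
      · exact hsa
  have line : ∀ (j : F) (b : Fin 3), ∑ k, (if f k = j ∧ cp (p k) = b then g k else 0) = 0 := by
    intro j
    set s : Fin 3 → ℝ := fun b => ∑ k, (if f k = j ∧ cp (p k) = b then g k else 0) with hs
    have hsa : s (cl j) = 0 := by
      apply Finset.sum_eq_zero
      intro k _
      rw [if_neg]
      rintro ⟨e1, e2⟩
      exact hprop k (by rw [e1, e2])
    have e1 : ∑ b, s b = 0 := by
      rw [← h4 j]
      simp only [hs]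
      rw [Finset.sum_comm]
      refine Finset.sum_congr rfl fun k _ => ?_
      by_cases hk : f k = j
      · simp [hk]
      · simp [hk]
    have e2 : ∑ b, xx b * s b = 0 := by
      rw [← h3 j]
      simp only [hs, Finset.mul_sum]
      rw [Finset.sum_comm]
      refine Finset.sum_congr rfl fun k _ => ?_
      by_cases hk : f k = j
      · simp [hk, mul_comm]
      · simp [hk]
    rw [Fin.sum_univ_three] at e1 e2
    intro b
    change s b = 0
    generalize cl j = a at hsa
    fin_cases a
    · obtain ⟨h5, h6⟩ := three 0 1 2 s xx hx (by decide) (by decide) (by decide) hsa e1 e2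
      fin_cases b
      · exact hsa
      · exact h5
      · exact h6
    · obtain ⟨h5, h6⟩ := three 1 0 2 s xx hx (by decide) (by decide) (by decide) hsa
        (by linarith) (by linarith)
      fin_cases b
      · exact h5
      · exact hsa
      · exact h6
    · obtain ⟨h5, h6⟩ := three 2 0 1 s xx hx (by decide) (by decide) (by decide) hsa
        (by linarith) (by linarith)
      fin_cases b
      · exact h5
      · exact h6
      · exact hsa
  have main : ∀ n k, ρ k = n → g k = 0 := by
    intro n
    induction n using Nat.strong_induction_on with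
    | _ n ih =>
      intro k hk
      rcases hρ k with h | h
      · have := point (p k) (cl (f k))
        rw [Finset.sum_eq_single k] at this
        · simpa using this
        · intro k' _ hk'
          by_cases hc : p k' = p k ∧ cl (f k') = cl (f k)
          · rw [if_pos hc]
            exact ih _ (hk ▸ h k' hc.1 hc.2 hk') k' rfl
          · rw [if_neg hc]
        · intro hh; exact absurd (Finset.mem_univ k) hh
      · have := line (f k) (cp (p k))
        rw [Finset.sum_eq_single k] at this
        · simpa using this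
        · intro k' _ hk'
          by_cases hc : f k' = f k ∧ cp (p k') = cp (p k)
          · rw [if_pos hc]
            exact ih _ (hk ▸ h k' hc.1 hc.2 hk') k' rfl
          · rw [if_neg hc]
        · intro hh; exact absurd (Finset.mem_univ k) hh
  exact fun k => main _ k rfl

end peel

/-! ### The structure -/

/-- Points and lines of the 18 incidences of the gadget of a vertex: `inl` is a frame element,
`inr` an own element of the gadget. -/
def gp : Fin 18 → Fin 3 ⊕ Fin 5 :=
  ![.inr 0, .inr 0, .inr 1, .inr 1, .inr 1, .inr 2, .inr 2, .inr 2, .inr 3, .inr 3, .inr 3,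
    .inr 4, .inr 4, .inr 4, .inl 0, .inl 0, .inl 1, .inl 2]
def gl : Fin 18 → Fin 3 ⊕ Fin 4 :=
  ![.inr 0, .inr 2, .inr 0, .inr 3, .inl 2, .inr 1, .inr 2, .inl 0, .inr 1, .inr 2, .inl 1,
    .inr 0, .inr 3, .inl 0, .inr 1, .inr 3, .inr 2, .inr 0]

/-- Incidences of the frame triangle. -/
def fa : Fin 6 → Fin 3 := ![0, 0, 1, 1, 2, 2]
def fb : Fin 6 → Fin 3 := ![1, 2, 0, 2, 0, 1]

/-- Colours. -/
def tn : Fin 5 → Fin 3 → Fin 3 := ![![0, 1, 2], ![0, 1, 0], ![1, 1, 2], ![0, 0, 2], ![2, 1, 2]]
def tm : Fin 4 → Fin 3 → Fin 3 := ![![1, 0, 1], ![2, 2, 1], ![2, 2, 0], ![1, 2, 1]]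

/-- Ranks for peeling. -/
def rk : Fin 3 → Fin 18 → ℕ :=
  ![![1, 1, 2, 3, 1, 1, 2, 1, 3, 2, 1, 2, 1, 1, 4, 4, 3, 3],
    ![1, 1, 1, 2, 3, 1, 2, 1, 2, 1, 1, 2, 1, 3, 3, 1, 3, 1],
    ![1, 1, 1, 2, 1, 1, 2, 3, 2, 1, 3, 2, 1, 1, 1, 3, 1, 3]]

def gcp (t : Fin 3) (i : Fin 18) : Fin 3 := Sum.elim id (fun s => tn s t) (gp i)
def gcl (t : Fin 3) (i : Fin 18) : Fin 3 := Sum.elim id (fun s => tm s t) (gl i)

theorem g_prop : ∀ t i, gcp t i ≠ gcl t i := by decide

theorem g_rank : ∀ t i, ((gp i).isRight = true ∧
      ∀ i', gp i' = gp i → gcl t i' = gcl t i → i' ≠ i → rk t i' < rk t i) ∨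
    ((gl i).isRight = true ∧
      ∀ i', gl i' = gl i → gcp t i' = gcp t i → i' ≠ i → rk t i' < rk t i) := by decide

theorem rk_pos : ∀ t i, 0 < rk t i ∧ rk t i < 100 := by decide

section structure_

variable {N E : Type} [Fintype N] [Fintype E] [DecidableEq N] [DecidableEq E]
  (ep : E → (Fin 3 ⊕ N) × (Fin 3 ⊕ N))

abbrev PP (N : Type) := Fin 3 ⊕ (N × Fin 5)
abbrev FF (N E : Type) := Fin 3 ⊕ ((N × Fin 4) ⊕ (E × Fin 3))
abbrev KK (N E : Type) := Fin 6 ⊕ ((N × Fin 18) ⊕ (E × (Fin 3 × Bool)))

/-- The point of a terminal. -/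
def pt : Fin 3 ⊕ N → PP N
  | .inl i => .inl i
  | .inr v => .inr (v, 0)

def kp : KK N E → PP N
  | .inl q => .inl (fa q)
  | .inr (.inl (v, i)) => Sum.map id (fun s => (v, s)) (gp i)
  | .inr (.inr (e, (_, b))) => pt (if b then (ep e).1 else (ep e).2)

def kf : KK N E → FF N E
  | .inl q => .inl (fb q)
  | .inr (.inl (v, i)) => Sum.map id (fun s => .inl (v, s)) (gl i)
  | .inr (.inr (e, (q, _))) => .inr (.inr (e, q))

theorem card_count : Fintype.card (KK N E) + 6 =
    2 * Fintype.card (PP N) + 2 * Fintype.card (FF N E) := by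
  simp only [Fintype.card_sum, Fintype.card_prod, Fintype.card_fin, Fintype.card_bool]
  ring

/-- The colour of a terminal. -/
def cc (c : N → Fin 3) : Fin 3 ⊕ N → Fin 3 := Sum.elim id c

omit [Fintype N] [DecidableEq N] in
theorem pt_inj : Function.Injective (pt : Fin 3 ⊕ N → PP N) := by
  rintro (a | a) (b | b) h
  · simpa [pt] using h
  · simp [pt] at h
  · simp [pt] at h
  · simpa [pt] using h

/-- From independence to a colouring. -/
theorem color_of_ind (hloop : ∀ e, (ep e).1 ≠ (ep e).2)
    (hpal : ∀ i j : Fin 3, i < j → ∃ e, ep e = (.inl i, .inl j))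
    (h : Ind (kp ep) (kf : KK N E → FF N E)) :
    ∃ c : N → Fin 3, ∀ e, cc c (ep e).1 ≠ cc c (ep e).2 := by
  obtain ⟨x, y, A, C, hG⟩ := h
  obtain ⟨t, loc, miss, ht, hloc, hmiss⟩ := exists_loc hG card_count
  have hE : ∀ e, loc (pt (ep e).1) ≠ loc (pt (ep e).2) := by
    intro e
    refine three_lines hG ht hloc hmiss _ _ (fun h => hloop e (pt_inj h))
      (fun q => .inr (.inr (e, (q, true)))) (fun q => .inr (.inr (e, (q, false)))) ?_ ?_ ?_ ?_
    · intro q; simp [kp]
    · intro q; simp [kp]
    · intro q; rfl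
    · intro q q' hq h
      apply hq
      simpa [kf] using h
  have hσ : Function.Injective (fun i : Fin 3 => loc (pt (.inl i : Fin 3 ⊕ N))) := by
    have key : ∀ i j : Fin 3, i < j → loc (pt (.inl i : Fin 3 ⊕ N)) ≠ loc (pt (.inl j)) := by
      intro i j hij
      obtain ⟨e, he⟩ := hpal i j hij
      have := hE e
      rw [he] at this
      exact this
    intro i j hij
    by_contra hne
    rcases lt_or_gt_of_ne hne with h | h
    · exact key i j h hij
    · exact key j i h hij.symm
  let σ : Equiv.Perm (Fin 3) := Equiv.ofBijective _ (Finite.injective_iff_bijective.1 hσ)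
  refine ⟨fun v => σ.symm (loc (pt (.inr v))), fun e => ?_⟩
  have hcc : ∀ z : Fin 3 ⊕ N, cc (fun v => σ.symm (loc (pt (.inr v)))) z = σ.symm (loc (pt z)) := by
    rintro (i | v)
    · symm
      rw [Equiv.symm_apply_eq]
      rfl
    · rfl
  rw [hcc, hcc]
  intro h
  exact hE e (σ.symm.injective h)

/-- From a colouring to independence. -/
theorem ind_of_color (c : N → Fin 3) (hc : ∀ e, cc c (ep e).1 ≠ cc c (ep e).2) :
    Ind (kp ep) (kf : KK N E → FF N E) := by
  classical
  let cp : PP N → Fin 3 := Sum.elim id (fun z => tn z.2 (c z.1))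
  have hth : ∀ a b : Fin 3, a ≠ b → ∃ d : Fin 3, a ≠ d ∧ b ≠ d := by decide
  choose third hth1 hth2 using hth
  let th : E → Fin 3 := fun e => third _ _ (hc e)
  let cl : FF N E → Fin 3 := Sum.elim id (Sum.elim (fun z => tm z.2 (c z.1)) (fun z => th z.1))
  have cpt : ∀ z : Fin 3 ⊕ N, cp (pt z) = cc c z := by
    rintro (i | v)
    · rfl
    · show tn 0 (c v) = c v
      generalize c v = t
      revert t
      decide
  let xx : Fin 3 → ℝ := ![0, 1, 2]
  let yy : Fin 3 → ℝ := ![0, 0, 1]
  -- sides: opposite to 0: through (1,0),(2,1): y = x - 1; opposite 1: y = x/2; opposite 2: y = 0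
  let sA : Fin 3 → ℝ := ![-1, -1/2, 0]
  let sC : Fin 3 → ℝ := ![1, 0, 0]
  have hxx : Function.Injective xx := by
    intro a b h
    fin_cases a <;> fin_cases b <;> simp [xx] at h ⊢
  have hsA : Function.Injective sA := by
    intro a b h
    fin_cases a <;> fin_cases b <;> simp [sA] at h ⊢ <;> norm_num at h
  have hinc : ∀ a b : Fin 3, a ≠ b → sA b * xx a + yy a + sC b = 0 := by
    intro a b h
    fin_cases a <;> fin_cases b <;> simp [sA, xx, yy, sC] at h ⊢ <;> norm_num
  have hprop : ∀ k : KK N E, cp (kp ep k) ≠ cl (kf k) := by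
    rintro (q | ⟨v, i⟩ | ⟨e, ⟨q, b⟩⟩)
    · show fa q ≠ fb q
      revert q; decide
    · have h1 : cp (kp ep (.inr (.inl (v, i)) : KK N E)) = gcp (c v) i := by
        simp only [kp, gcp, cp]
        cases gp i <;> rfl
      have h2 : cl (kf (.inr (.inl (v, i)) : KK N E)) = gcl (c v) i := by
        simp only [kf, gcl, cl]
        cases gl i <;> rfl
      rw [h1, h2]
      exact g_prop _ _
    · show cp (pt _) ≠ th e
      rw [cpt]
      cases b
      · exact hth2 _ _ (hc e)
      · exact hth1 _ _ (hc e)
  let ρ : KK N E → ℕ := Sum.elim (fun _ => 100) (Sum.elim (fun z => rk (c z.1) z.2) (fun _ => 0))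
  refine ⟨fun i => xx (cp i), fun i => yy (cp i), fun j => sA (cl j), fun j => sC (cl j),
    fun k => hinc _ _ (hprop k), ?_, ?_, peel cp cl (kp ep) kf xx sA hxx hsA hprop ρ ?_⟩
  · rintro ⟨a, b, d, hab, h⟩
    have h0 := h (.inl 0)
    have h1 := h (.inl 1)
    have h2 := h (.inl 2)
    simp [cp, xx, yy] at h0 h1 h2
    rcases hab with h3 | h3
    · apply h3; linarith
    · apply h3; linarith
  · rintro ⟨u, v, h⟩
    have h0 := h (.inl 0)
    have h1 := h (.inl 1)
    have h2 := h (.inl 2)
    simp [cl, sA, sC] at h0 h1 h2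
    linarith
  · rintro (q | ⟨v, i⟩ | ⟨e, ⟨q, b⟩⟩)
    · -- frame: at the point
      left
      rintro (q' | ⟨v', i'⟩ | ⟨e', ⟨q', b'⟩⟩) h1 h2 h3
      · exfalso
        apply h3
        have h1' : fa q' = fa q := by simpa [kp] using h1
        have h2' : fb q' = fb q := h2
        have : q' = q := by
          clear h1 h2 h3
          revert q q'
          decide
        rw [this]
      · exact (rk_pos _ _).2
      · show 0 < 100
        norm_num
    · rcases g_rank (c v) i with ⟨h0, hr⟩ | ⟨h0, hr⟩
      · left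
        obtain ⟨s, hs⟩ : ∃ s, gp i = .inr s := by
          cases h : gp i with
          | inl a => rw [h] at h0; simp at h0
          | inr s => exact ⟨s, rfl⟩
        rintro (q' | ⟨v', i'⟩ | ⟨e', ⟨q', b'⟩⟩) h1 h2 h3
        · simp [kp, hs] at h1
        · have h4 : v' = v ∧ gp i' = gp i := by
            cases hg : gp i' with
            | inl a => simp [kp, hs, hg] at h1
            | inr s' =>
              simp only [kp, hs, hg, Sum.map_inr, Sum.inr.injEq, Prod.mk.injEq] at h1
              exact ⟨h1.1, by rw [hs, h1.2]⟩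
          obtain ⟨rfl, h5⟩ := h4
          refine hr i' h5 ?_ (fun h => h3 (by rw [h]))
          have e1 : ∀ i, cl (kf (.inr (.inl (v', i)) : KK N E)) = gcl (c v') i := by
            intro i
            simp only [kf, gcl, cl]
            cases gl i <;> rfl
          rw [← e1, ← e1]
          exact h2
        · exact (rk_pos _ _).1
      · right
        obtain ⟨s, hs⟩ : ∃ s, gl i = .inr s := by
          cases h : gl i with
          | inl a => rw [h] at h0; simp at h0
          | inr s => exact ⟨s, rfl⟩
        rintro (q' | ⟨v', i'⟩ | ⟨e', ⟨q', b'⟩⟩) h1 h2 h3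
        · simp [kf, hs] at h1
        · have h4 : v' = v ∧ gl i' = gl i := by
            cases hg : gl i' with
            | inl a => simp [kf, hs, hg] at h1
            | inr s' =>
              simp only [kf, hs, hg, Sum.map_inr, Sum.inr.injEq, Sum.inl.injEq,
                Prod.mk.injEq] at h1
              exact ⟨h1.1, by rw [hs, h1.2]⟩
          obtain ⟨rfl, h5⟩ := h4
          refine hr i' h5 ?_ (fun h => h3 (by rw [h]))
          have e1 : ∀ i, cp (kp ep (.inr (.inl (v', i)) : KK N E)) = gcp (c v') i := by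
            intro i
            simp only [kp, gcp, cp]
            cases gp i <;> rfl
          rw [← e1, ← e1]
          exact h2
        · exact (rk_pos _ _).1
    · right
      rintro (q' | ⟨v', i'⟩ | ⟨e', ⟨q', b'⟩⟩) h1 h2 h3
      · simp [kf] at h1
      · exfalso
        cases hg : gl i' <;> simp [kf, hg] at h1
      · exfalso
        simp only [kf, Sum.inr.injEq, Prod.mk.injEq] at h1
        obtain ⟨rfl, rfl⟩ := h1
        have hb : b' ≠ b := fun h => h3 (by rw [h])
        change cp (pt _) = cp (pt _) at h2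
        rw [cpt, cpt] at h2
        have h5 := hc e'
        cases b <;> cases b'
        · exact hb rfl
        · exact h5 h2
        · exact h5 h2.symm
        · exact hb rfl

end structure_

end Pool.Agent.IncInd
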