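import Pool.Agent.Lib_MP_5661ce_lc.Gadget
import Pool.Agent.Lib_MP_5661ce_lc.Defs

/-!
# Abstract structures and listed structures
-/

namespace Pool.Agent.IncInd

set_option linter.unusedSectionVars false

section

variable {P F K : Type} [Fintype P] [Fintype F] [Fintype K] [DecidableEq P] [DecidableEq F]
  (S : Inc) (nP : P → Name) (nF : F → Name) (p : K → P) (f : K → F)

/-- The listed structure `S` is a listing of the abstract structure `(p, f)` with names `nP`,
`nF`. -/
structure Lists : Prop where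
  injP : Function.Injective nP
  injF : Function.Injective nF
  injK : ∀ k k', p k = p k' → f k = f k' → k = k'
  pts : ∀ n, n ∈ S.pts ↔ ∃ i, nP i = n
  lns : ∀ n, n ∈ S.lns ↔ ∃ j, nF j = n
  inc : ∀ e, e ∈ S.inc ↔ ∃ k, (nP (p k), nF (f k)) = e

variable {S nP nF p f}

theorem Lists.good_iff (h : Lists S nP nF p f) (x y A C : Name → ℝ) :
    (S.Realizes x y A C ∧ S.Nondegenerate x y A C ∧ LinearIndependent ℝ (fun e => S.J x A e)) ↔
      Good p f (x ∘ nP) (y ∘ nP) (A ∘ nF) (C ∘ nF) := by
  classical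
  -- reindexing of rows and columns
  let eK : K ≃ {e // e ∈ S.inc} := Equiv.ofBijective
    (fun k => ⟨(nP (p k), nF (f k)), (h.inc _).2 ⟨k, rfl⟩⟩) (by
      constructor
      · intro k k' hk
        have := congrArg Subtype.val hk
        simp only [Prod.mk.injEq] at this
        exact h.injK _ _ (h.injP this.1) (h.injF this.2)
      · rintro ⟨e, he⟩
        obtain ⟨k, hk⟩ := (h.inc e).1 he
        exact ⟨k, Subtype.ext hk⟩)
  let eP : P ≃ {i // i ∈ S.pts} := Equiv.ofBijective
    (fun i => ⟨nP i, (h.pts _).2 ⟨i, rfl⟩⟩) (by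
      constructor
      · intro k k' hk
        exact h.injP (congrArg Subtype.val hk)
      · rintro ⟨e, he⟩
        obtain ⟨k, hk⟩ := (h.pts e).1 he
        exact ⟨k, Subtype.ext hk⟩)
  let eF : F ≃ {i // i ∈ S.lns} := Equiv.ofBijective
    (fun i => ⟨nF i, (h.lns _).2 ⟨i, rfl⟩⟩) (by
      constructor
      · intro k k' hk
        exact h.injF (congrArg Subtype.val hk)
      · rintro ⟨e, he⟩
        obtain ⟨k, hk⟩ := (h.lns e).1 he
        exact ⟨k, Subtype.ext hk⟩)
  let eC := Equiv.sumCongr (Equiv.sumCongr eP eP) (Equiv.sumCongr eF eF)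
  have hrow : ∀ k, (LinearEquiv.funCongrLeft ℝ ℝ eC) (S.J x A (eK k)) =
      row (x ∘ nP) (A ∘ nF) (p k, f k) := by
    intro k
    ext c
    rcases c with (i | i) | (j | j)
    · show (if nP i = nP (p k) then A (nF (f k)) else 0) = if i = p k then A (nF (f k)) else 0
      by_cases hi : i = p k
      · rw [if_pos hi, if_pos (congrArg nP hi)]
      · rw [if_neg hi, if_neg (fun e => hi (h.injP e))]
    · show (if nP i = nP (p k) then (1 : ℝ) else 0) = if i = p k then 1 else 0
      by_cases hi : i = p k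
      · rw [if_pos hi, if_pos (congrArg nP hi)]
      · rw [if_neg hi, if_neg (fun e => hi (h.injP e))]
    · show (if nF j = nF (f k) then x (nP (p k)) else 0) = if j = f k then x (nP (p k)) else 0
      by_cases hi : j = f k
      · rw [if_pos hi, if_pos (congrArg nF hi)]
      · rw [if_neg hi, if_neg (fun e => hi (h.injF e))]
    · show (if nF j = nF (f k) then (1 : ℝ) else 0) = if j = f k then 1 else 0
      by_cases hi : j = f k
      · rw [if_pos hi, if_pos (congrArg nF hi)]
      · rw [if_neg hi, if_neg (fun e => hi (h.injF e))]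
  have hli : LinearIndependent ℝ (fun e => S.J x A e) ↔
      LinearIndependent ℝ (fun k => row (x ∘ nP) (A ∘ nF) (p k, f k)) := by
    rw [← linearIndependent_equiv eK]
    have h1 : (fun k => row (x ∘ nP) (A ∘ nF) (p k, f k)) =
        (LinearEquiv.funCongrLeft ℝ ℝ eC).toLinearMap ∘ ((fun e => S.J x A e) ∘ eK) := by
      funext k
      exact (hrow k).symm
    rw [h1, LinearMap.linearIndependent_iff]
    exact LinearEquiv.ker _
  constructor
  · rintro ⟨h1, ⟨h2, h3⟩, h4⟩
    refine ⟨fun k => h1 _ ((h.inc _).2 ⟨k, rfl⟩), ?_, ?_, (linInd_iff _ _ _ _).1 (hli.1 h4)⟩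
    · rintro ⟨a, b, c, hab, hh⟩
      refine h2 ⟨a, b, c, hab, fun n hn => ?_⟩
      obtain ⟨i, rfl⟩ := (h.pts n).1 hn
      exact hh i
    · rintro ⟨u, v, hh⟩
      refine h3 ⟨u, v, fun n hn => ?_⟩
      obtain ⟨j, rfl⟩ := (h.lns n).1 hn
      exact hh j
  · rintro ⟨h1, h2, h3, h4⟩
    refine ⟨?_, ⟨?_, ?_⟩, hli.2 ((linInd_iff _ _ _ _).2 h4)⟩
    · intro e he
      obtain ⟨k, rfl⟩ := (h.inc e).1 he
      exact h1 k
    · rintro ⟨a, b, c, hab, hh⟩
      exact h2 ⟨a, b, c, hab, fun i => hh _ ((h.pts _).2 ⟨i, rfl⟩)⟩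
    · rintro ⟨u, v, hh⟩
      exact h3 ⟨u, v, fun j => hh _ ((h.lns _).2 ⟨j, rfl⟩)⟩

theorem Lists.independent_iff (h : Lists S nP nF p f) : S.Independent ↔ Ind p f := by
  constructor
  · rintro ⟨x, y, A, C, hh⟩
    exact ⟨_, _, _, _, (h.good_iff x y A C).1 hh⟩
  · rintro ⟨x, y, A, C, hh⟩
    refine ⟨Function.extend nP x 0, Function.extend nP y 0, Function.extend nF A 0,
      Function.extend nF C 0, (h.good_iff _ _ _ _).2 ?_⟩
    rw [Function.extend_comp h.injP, Function.extend_comp h.injP, Function.extend_comp h.injF,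
      Function.extend_comp h.injF]
    exact hh

end

end Pool.Agent.IncInd
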