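import Pool.Agent.Lib_MP_a1eae6_lc.Gen

/-!
# More polynomial-time functions
-/

set_option linter.unusedSectionVars false

namespace Pool.Agent.IncInd

open Pool.Agent.PT81 Pool.Agent.IsoImp Polynomial

noncomputable section

variable {E : Env} {α β γ δ : Type}

instance instEncFin (n : ℕ) : Enc E (Fin n) := finEnc E (Fin n)

/-- A sum as a pair of a tag and a tree. -/
def iota (E : Env) [Enc E α] [Enc E β] : α ⊕ β → Bool × Tr E.A
  | .inl a => (false, en E a)
  | .inr b => (true, en E b)

instance instEncSum [Enc E α] [Enc E β] : Enc E (α ⊕ β) where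
  enc x := pe (be E) (fun t => t) (iota E x)
  inj := by
    rintro (a | a) (b | b) h
    · simp only [pe, iota, Tr.node.injEq] at h
      rw [en_inj h.2]
    · simp only [pe, iota, Tr.node.injEq, be, bstr] at h
      exact absurd h.1 (by simp)
    · simp only [pe, iota, Tr.node.injEq, be, bstr] at h
      exact absurd h.1 (by simp)
    · simp only [pe, iota, Tr.node.injEq] at h
      rw [en_inj h.2]

section

variable [Enc E α] [Enc E β] [Enc E γ] [Enc E δ]

theorem Poly.inl {f : γ → α} (hf : Poly E f) : Poly E (fun c => (Sum.inl (f c) : α ⊕ β)) :=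
  PT.recode ((Poly.const false).pair hf) fun _ => rfl

theorem Poly.inr {f : γ → β} (hf : Poly E f) : Poly E (fun c => (Sum.inr (f c) : α ⊕ β)) :=
  PT.recode ((Poly.const true).pair hf) fun _ => rfl

/-- Case analysis on a sum. -/
theorem Poly.sumCases {f : γ → α ⊕ β} {g : γ × α → δ} {h : γ × β → δ}
    (hf : Poly E f) (hg : Poly E g) (hh : Poly E h) :
    Poly E (fun c => match f c with
      | .inl a => g (c, a)
      | .inr b => h (c, b)) := by
  classical
  have tag : PT E (en E : α ⊕ β → Tr E.A) (be E) (fun x => (iota E x).1) :=
    PT.precode (PT.fst (be E) (fun t : Tr E.A => t)) (iota E) fun _ => rfl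
  have pay : PT E (en E : α ⊕ β → Tr E.A) (fun t => t) (fun x => (iota E x).2) :=
    PT.precode (PT.snd (be E) (fun t : Tr E.A => t)) (iota E) fun _ => rfl
  have hk : PT E (en E) (fun t => t) (fun c => be E (iota E (f c)).1) := by
    have h1 : PT E (en E) (be E) (fun c => (iota E (f c)).1) := PT.comp (g := fun x => (iota E x).1) tag hf
    exact PT.recode h1 (e₂' := fun t => t) (f' := fun c => be E (iota E (f c)).1) fun _ => rfl
  have hp : PT E (en E) (fun t => t) (fun c => (iota E (f c)).2) := PT.comp (g := fun x => (iota E x).2) pay hf
  have hT : ∀ c : {c // (be E (iota E (f c)).1).isNode = true}, (f c).isRight = true := by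
    intro c
    have := c.2
    rw [Tr.isNode_be] at this
    cases hc : f c.1 with
    | inl a => rw [hc] at this; simp [iota] at this
    | inr b => rfl
  have hF : ∀ c : {c // (be E (iota E (f c)).1).isNode = false}, (f c).isLeft = true := by
    intro c
    have := c.2
    rw [Tr.isNode_be] at this
    cases hc : f c.1 with
    | inl a => rfl
    | inr b => rw [hc] at this; simp [iota] at this
  set G : γ → δ := fun c => match f c with
      | .inl a => g (c, a)
      | .inr b => h (c, b) with hG
  have h1 : PT E (fun c : {c // (be E (iota E (f c)).1).isNode = true} => en E c.1) (en E)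
      (fun c => G c.1) := by
    have h2 : PT E (fun c : {c // (be E (iota E (f c)).1).isNode = true} => en E c.1) (en E)
        (fun c => (c.1, (f c.1).getRight (hT c))) := by
      refine PT.recode ((PT.pair Poly.id hp).sub _) fun c => ?_
      obtain ⟨c, hc⟩ := c
      have h3 := hT ⟨c, hc⟩
      show pe (en E) (en E) (c, (f c).getRight _) = pe (en E) (fun t => t) (c, (iota E (f c)).2)
      simp only [pe]
      congr 1
      have h4 : f c = .inr ((f c).getRight (hT ⟨c, hc⟩)) := by simp
      generalize (f c).getRight (hT ⟨c, hc⟩) = b at h4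
      rw [h4]
      rfl
    refine (PT.comp hh h2).congr fun c => ?_
    rw [hG]
    have h4 : f c.1 = .inr ((f c.1).getRight (hT c)) := by simp
    generalize (f c.1).getRight (hT c) = b at h4
    simp only
    rw [h4]
  have h1' : PT E (fun c : {c // (be E (iota E (f c)).1).isNode = false} => en E c.1) (en E)
      (fun c => G c.1) := by
    have h2 : PT E (fun c : {c // (be E (iota E (f c)).1).isNode = false} => en E c.1) (en E)
        (fun c => (c.1, (f c.1).getLeft (hF c))) := by
      refine PT.recode ((PT.pair Poly.id hp).sub _) fun c => ?_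
      obtain ⟨c, hc⟩ := c
      have h3 := hF ⟨c, hc⟩
      show pe (en E) (en E) (c, (f c).getLeft _) = pe (en E) (fun t => t) (c, (iota E (f c)).2)
      simp only [pe]
      congr 1
      have h4 : f c = .inl ((f c).getLeft (hF ⟨c, hc⟩)) := by simp
      generalize (f c).getLeft (hF ⟨c, hc⟩) = b at h4
      rw [h4]
      rfl
    refine (PT.comp hg h2).congr fun c => ?_
    rw [hG]
    have h4 : f c.1 = .inl ((f c.1).getLeft (hF c)) := by simp
    generalize (f c.1).getLeft (hF c) = b at h4
    simp only
    rw [h4]
  refine (PT.iteNode (f := G) (g := G) hk h1 h1').congr fun c => ?_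
  simp

/-- Removing repetitions. -/
def dd [DecidableEq α] (l : List α) : List α :=
  l.foldr (fun a acc => if acc.any (fun b => decide (b = a)) then acc else a :: acc) []

theorem mem_dd [DecidableEq α] (l : List α) (a : α) : a ∈ dd l ↔ a ∈ l := by
  induction l with
  | nil => simp [dd]
  | cons b l ih =>
    have e : dd (b :: l) = if (dd l).any (fun c => decide (c = b)) then dd l else b :: dd l := rfl
    rw [e]
    split_ifs with h
    · rw [ih, List.mem_cons]
      constructor
      · exact Or.inr
      · rintro (h' | h')
        · subst h'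
          simp only [List.any_eq_true, decide_eq_true_eq] at h
          obtain ⟨x, hx, rfl⟩ := h
          exact ih.1 hx
        · exact h'
    · rw [List.mem_cons, List.mem_cons, ih]

theorem nodup_dd [DecidableEq α] (l : List α) : (dd l).Nodup := by
  induction l with
  | nil => simp [dd]
  | cons b l ih =>
    have e : dd (b :: l) = if (dd l).any (fun c => decide (c = b)) then dd l else b :: dd l := rfl
    rw [e]
    split_ifs with h
    · exact ih
    · refine List.nodup_cons.2 ⟨?_, ih⟩
      intro hb
      apply h
      simp only [List.any_eq_true, decide_eq_true_eq]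
      exact ⟨b, hb, rfl⟩

theorem Poly.dd [DecidableEq α] {f : γ → List α} (hf : Poly E f) :
    Poly E (fun c => dd (f c)) := by
  obtain ⟨pf, hpf⟩ := hf.bound
  refine Poly.foldrAdd (b := fun _ => ([] : List α))
    (g := fun x : γ × (α × List α) => if x.2.2.any (fun b => decide (b = x.2.1)) then x.2.2
      else x.2.1 :: x.2.2) hf (Poly.const [])
    (Poly.ite (Poly.any (g := fun y : (γ × (α × List α)) × α => decide (y.2 = y.1.2.1))
      (Poly.snd.comp Poly.snd)
      (Poly.eq Poly.snd (Poly.fst.comp (Poly.snd.comp Poly.fst))))
      (Poly.snd.comp Poly.snd) (Poly.cons (Poly.fst.comp Poly.snd) (Poly.snd.comp Poly.snd)))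
    (1 + pf) ?_
  intro c a ha b
  have h1 := mem_esz_le (E := E) _ a ha
  have h2 := hpf c
  simp only
  split_ifs with h
  · omega
  · simp only [esz_cons, eval_add, eval_one]
    omega

end

/-! ### Names of the elements of a type -/

/-- A prefix-free naming by binary strings. -/
class Nm (α : Type) where
  nm : α → List Bool
  pf : ∀ a b s t, nm a ++ s = nm b ++ t → a = b ∧ s = t

theorem nm_inj {α : Type} [Nm α] : Function.Injective (Nm.nm : α → List Bool) := by
  intro a b h
  exact (Nm.pf a b [] [] (by rw [h])).1

instance : Nm ℕ where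
  nm n := List.replicate n true ++ [false]
  pf := by
    intro a
    induction a with
    | zero =>
      intro b s t h
      cases b with
      | zero => simpa using h
      | succ b => simp [List.replicate_succ] at h
    | succ a ih =>
      intro b s t h
      cases b with
      | zero => simp [List.replicate_succ] at h
      | succ b =>
        simp only [List.replicate_succ, List.cons_append, List.cons.injEq, true_and] at h
        obtain ⟨h1, h2⟩ := ih b s t h
        exact ⟨by rw [h1], h2⟩

instance : Nm (List Bool) where
  nm l := l.flatMap (fun b => [true, b]) ++ [false]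
  pf := by
    intro a
    induction a with
    | nil =>
      intro b s t h
      cases b with
      | nil => simpa using h
      | cons x b => simp at h
    | cons x a ih =>
      intro b s t h
      cases b with
      | nil => simp at h
      | cons y b =>
        simp only [List.flatMap_cons, List.cons_append, List.nil_append, List.cons.injEq,
          true_and] at h
        obtain ⟨h1, h2⟩ := ih b s t h.2
        exact ⟨by rw [h.1, h1], h2⟩

instance (n : ℕ) : Nm (Fin n) where
  nm i := Nm.nm (i : ℕ)
  pf := by
    intro a b s t h
    obtain ⟨h1, h2⟩ := Nm.pf _ _ _ _ h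
    exact ⟨Fin.ext h1, h2⟩

instance [Nm α] [Nm β] : Nm (α × β) where
  nm x := Nm.nm x.1 ++ Nm.nm x.2
  pf := by
    intro a b s t h
    simp only [List.append_assoc] at h
    obtain ⟨h1, h2⟩ := Nm.pf _ _ _ _ h
    obtain ⟨h3, h4⟩ := Nm.pf _ _ _ _ h2
    exact ⟨Prod.ext h1 h3, h4⟩

instance [Nm α] [Nm β] : Nm (α ⊕ β) where
  nm x := match x with
    | .inl a => false :: Nm.nm a
    | .inr b => true :: Nm.nm b
  pf := by
    rintro (a | a) (b | b) s t h
    · simp only [List.cons_append, List.cons.injEq, true_and] at h
      obtain ⟨h1, h2⟩ := Nm.pf _ _ _ _ h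
      exact ⟨by rw [h1], h2⟩
    · simp at h
    · simp at h
    · simp only [List.cons_append, List.cons.injEq, true_and] at h
      obtain ⟨h1, h2⟩ := Nm.pf _ _ _ _ h
      exact ⟨by rw [h1], h2⟩

/-- The naming is computable in polynomial time. -/
class PNm (E : Env) (α : Type) [Enc E α] [Nm α] : Prop where
  poly : Poly E (Nm.nm : α → List Bool)

section

variable [Enc E α] [Enc E β] [Enc E γ] [Nm α] [Nm β]

instance : PNm E ℕ where
  poly := Poly.append (Poly.replicate Poly.id (Poly.const true)) (Poly.const [false])

instance : PNm E (List Bool) where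
  poly := Poly.append (Poly.flatMap (g := fun p : List Bool × Bool => [true, p.2]) Poly.id
    (Poly.cons (Poly.const true) (Poly.cons Poly.snd (Poly.const [])))) (Poly.const [false])

instance (n : ℕ) : PNm E (Fin n) where
  poly := Poly.ofFin _

instance [PNm E α] [PNm E β] : PNm E (α × β) where
  poly := Poly.append (PNm.poly.comp Poly.fst) (PNm.poly.comp Poly.snd)

instance [PNm E α] [PNm E β] : PNm E (α ⊕ β) where
  poly := by
    refine (Poly.sumCases (f := fun x : α ⊕ β => x) (g := fun p => false :: Nm.nm p.2)
      (h := fun p => true :: Nm.nm p.2) Poly.id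
      (Poly.cons (Poly.const false) (PNm.poly.comp Poly.snd))
      (Poly.cons (Poly.const true) (PNm.poly.comp Poly.snd))).congr fun x => ?_
    cases x <;> rfl

theorem Poly.nm [PNm E α] {f : γ → α} (hf : Poly E f) : Poly E (fun c => Nm.nm (f c)) :=
  PNm.poly.comp hf

end

end

end Pool.Agent.IncInd
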