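import Pool.Agent.Lib_MP_5661ce_lc.Link
import Pool.Agent.Lib_MP_5661ce_lc.Poly2
import Mathlib.Data.Fintype.Sets
import Mathlib.Data.Fintype.Prod
import Mathlib.Data.Fintype.Sum

/-!
# From graphs to listed incidence structures
-/

set_option linter.unusedSectionVars false

namespace Pool.Agent.IncInd

open Pool.Agent.PT81

noncomputable section

abbrev Gate := Fin 4 × (ℕ × (ℕ × (ℕ × Name)))
abbrev W := ℕ ⊕ (Name ⊕ (Fin 3 × Gate))
abbrev T := Fin 3 ⊕ W

instance instDec1 : DecidableEq (ℕ × Name) := inferInstance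
instance instDec2 : DecidableEq (ℕ × (ℕ × Name)) := inferInstance
instance instDec3 : DecidableEq (ℕ × (ℕ × (ℕ × Name))) := inferInstance
instance instDec4 : DecidableEq Gate := inferInstance
instance instDec5 : DecidableEq (Fin 3 × Gate) := inferInstance
instance instDec6 : DecidableEq (Name ⊕ (Fin 3 × Gate)) := inferInstance
instance instDec7 : DecidableEq W := inferInstance
instance instDec8 : DecidableEq T := inferInstance
instance instDec9 : DecidableEq (T × T) := inferInstance
abbrev PN := Fin 3 ⊕ (W × Fin 5)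
abbrev FN := Fin 3 ⊕ ((W × Fin 4) ⊕ ((T × T) × Fin 3))

/-- Points and lines of the gadget of `v`. -/
def gpt (v : W) (i : Fin 18) : PN := Sum.map id (fun s => (v, s)) (gp i)
def gln (v : W) (i : Fin 18) : FN := Sum.map id (fun s => .inl (v, s)) (gl i)
/-- The point of a terminal. -/
def ptT : T → PN := Sum.map id (fun v => (v, 0))

def rawPts (Vs : List W) : List Name :=
  (List.finRange 3).map (fun i => Nm.nm (.inl i : PN)) ++
    Vs.flatMap (fun v => (List.finRange 5).map (fun i => Nm.nm (.inr (v, i) : PN)))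

def rawLns (Vs : List W) (Es : List (T × T)) : List Name :=
  (List.finRange 3).map (fun i => Nm.nm (.inl i : FN)) ++
    (Vs.flatMap (fun v => (List.finRange 4).map (fun i => Nm.nm (.inr (.inl (v, i)) : FN))) ++
      Es.flatMap (fun e => (List.finRange 3).map (fun i => Nm.nm (.inr (.inr (e, i)) : FN))))

def rawInc (Vs : List W) (Es : List (T × T)) : List (Name × Name) :=
  (List.finRange 6).map (fun q => (Nm.nm (.inl (fa q) : PN), Nm.nm (.inl (fb q) : FN))) ++
    (Vs.flatMap (fun v => (List.finRange 18).map (fun i => (Nm.nm (gpt v i), Nm.nm (gln v i)))) ++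
      Es.flatMap (fun e => (List.finRange 3).flatMap (fun q =>
        [(Nm.nm (ptT e.1), Nm.nm (.inr (.inr (e, q)) : FN)),
          (Nm.nm (ptT e.2), Nm.nm (.inr (.inr (e, q)) : FN))])))

def mkInc (Vs : List W) (Es : List (T × T)) : Inc :=
  ⟨dd (rawPts Vs), dd (rawLns Vs Es), dd (rawInc Vs Es)⟩

theorem kinj {N E : Type} (ep : E → (Fin 3 ⊕ N) × (Fin 3 ⊕ N)) (hloop : ∀ e, (ep e).1 ≠ (ep e).2)
    (k k' : KK N E) (h1 : kp ep k = kp ep k') (h2 : (kf k : FF N E) = kf k') : k = k' := by
  have hg : ∀ i i' : Fin 18, gp i = gp i' → gl i = gl i' → i = i' := by decide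
  have hg2 : ∀ i : Fin 18, (gp i).isRight = true ∨ (gl i).isRight = true := by decide
  have hfr : ∀ q q' : Fin 6, fa q = fa q' → fb q = fb q' → q = q' := by decide
  rcases k with q | ⟨v, i⟩ | ⟨e, ⟨q, b⟩⟩ <;> rcases k' with q' | ⟨v', i'⟩ | ⟨e', ⟨q', b'⟩⟩
  · simp only [kp, kf, Sum.inl.injEq] at h1 h2
    rw [hfr q q' h1 h2]
  · exfalso
    simp only [kp, kf] at h1 h2
    rcases hg2 i' with h | h
    · cases hh : gp i' with
      | inl a => rw [hh] at h; simp at h
      | inr a => rw [hh] at h1; simp at h1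
    · cases hh : gl i' with
      | inl a => rw [hh] at h; simp at h
      | inr a => rw [hh] at h2; simp at h2
  · simp [kf] at h2
  · exfalso
    simp only [kp, kf] at h1 h2
    rcases hg2 i with h | h
    · cases hh : gp i with
      | inl a => rw [hh] at h; simp at h
      | inr a => rw [hh] at h1; simp at h1
    · cases hh : gl i with
      | inl a => rw [hh] at h; simp at h
      | inr a => rw [hh] at h2; simp at h2
  · simp only [kp, kf] at h1 h2
    have hp : gp i = gp i' := by
      cases hh : gp i <;> cases hh' : gp i' <;> rw [hh, hh'] at h1 <;> simp at h1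
      · rw [h1]
      · rw [h1.2]
    have hl : gl i = gl i' := by
      cases hh : gl i <;> cases hh' : gl i' <;> rw [hh, hh'] at h2 <;> simp at h2
      · rw [h2]
      · rw [h2.2]
    have hv : v = v' := by
      rcases hg2 i with h | h
      · cases hh : gp i with
        | inl a => rw [hh] at h; simp at h
        | inr a =>
          rw [← hp, hh] at h1
          simp at h1
          exact h1
      · cases hh : gl i with
        | inl a => rw [hh] at h; simp at h
        | inr a =>
          rw [← hl, hh] at h2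
          simp at h2
          exact h2
    rw [hg i i' hp hl, hv]
  · simp only [kf] at h2
    cases hh : gl i <;> rw [hh] at h2 <;> simp at h2
  · simp [kf] at h2
  · simp only [kf] at h2
    cases hh : gl i' <;> rw [hh] at h2 <;> simp at h2
  · simp only [kf, Sum.inr.injEq, Prod.mk.injEq] at h2
    obtain ⟨rfl, rfl⟩ := h2
    have h3 := pt_inj h1
    have h4 := hloop e
    cases b <;> cases b'
    · rfl
    · exact absurd h3.symm h4
    · exact absurd h3 h4
    · rfl

section

variable (Vs : List W) (Es : List (T × T))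

abbrev NN' := {v // v ∈ Vs}
abbrev EE' := {e // e ∈ Es}

instance instFintypeMem {A : Type} [DecidableEq A] (l : List A) : Fintype {a // a ∈ l} :=
  Fintype.subtype l.toFinset fun _ => List.mem_toFinset

variable {Vs Es}

/-- Restriction of a terminal. -/
def tN (t : T) (h : ∀ v, t = .inr v → v ∈ Vs) : Fin 3 ⊕ NN' Vs :=
  match t, h with
  | .inl i, _ => .inl i
  | .inr v, h => .inr ⟨v, h v rfl⟩

theorem tN_val (t : T) (h : ∀ v, t = .inr v → v ∈ Vs) : Sum.map id Subtype.val (tN t h) = t := by
  cases t <;> rfl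

def upP : PP (NN' Vs) → PN := Sum.map id (Prod.map Subtype.val id)
def upF : FF (NN' Vs) (EE' Es) → FN :=
  Sum.map id (Sum.map (Prod.map Subtype.val id) (Prod.map Subtype.val id))

theorem upP_inj : Function.Injective (upP : PP (NN' Vs) → PN) :=
  Sum.map_injective.2 ⟨Function.injective_id, Subtype.val_injective.prodMap Function.injective_id⟩

theorem upF_inj : Function.Injective (upF : FF (NN' Vs) (EE' Es) → FN) :=
  Sum.map_injective.2 ⟨Function.injective_id, Sum.map_injective.2
    ⟨Subtype.val_injective.prodMap Function.injective_id,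
      Subtype.val_injective.prodMap Function.injective_id⟩⟩

theorem upP_pt (t : T) (h : ∀ v, t = .inr v → v ∈ Vs) : upP (pt (tN t h)) = ptT t := by
  cases t <;> rfl

theorem mkInc_spec (hV : ∀ e ∈ Es, ∀ v, (e.1 = .inr v ∨ e.2 = .inr v) → v ∈ Vs)
    (hloop : ∀ e ∈ Es, e.1 ≠ e.2)
    (hpal : ∀ i j : Fin 3, i < j → ((.inl i, .inl j) : T × T) ∈ Es) :
    (mkInc Vs Es).Valid ∧ ((mkInc Vs Es).Independent ↔
      ∃ c : W → Fin 3, ∀ e ∈ Es, (Sum.elim id c e.1 : Fin 3) ≠ Sum.elim id c e.2) := by
  let ep : EE' Es → (Fin 3 ⊕ NN' Vs) × (Fin 3 ⊕ NN' Vs) := fun e =>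
    (tN e.1.1 fun v hv => hV e.1 e.2 v (Or.inl hv), tN e.1.2 fun v hv => hV e.1 e.2 v (Or.inr hv))
  have hloop' : ∀ e, (ep e).1 ≠ (ep e).2 := by
    intro e he
    apply hloop e.1 e.2
    have := congrArg (Sum.map id Subtype.val) he
    simp only [ep] at this
    rw [tN_val, tN_val] at this
    exact this
  have hL : Lists (mkInc Vs Es) (fun i => Nm.nm (upP i)) (fun j => Nm.nm (upF j)) (kp ep)
      (kf : KK (NN' Vs) (EE' Es) → FF (NN' Vs) (EE' Es)) := by
    refine ⟨nm_inj.comp upP_inj, nm_inj.comp upF_inj, kinj ep hloop', ?_, ?_, ?_⟩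
    · intro n
      show n ∈ dd (rawPts Vs) ↔ _
      rw [mem_dd, rawPts, List.mem_append, List.mem_map, List.mem_flatMap]
      constructor
      · rintro (⟨i, -, rfl⟩ | ⟨v, hv, h⟩)
        · exact ⟨.inl i, rfl⟩
        · obtain ⟨i, -, rfl⟩ := List.mem_map.1 h
          exact ⟨.inr (⟨v, hv⟩, i), rfl⟩
      · rintro ⟨i | ⟨v, i⟩, rfl⟩
        · exact Or.inl ⟨i, List.mem_finRange i, rfl⟩
        · exact Or.inr ⟨v.1, v.2, List.mem_map.2 ⟨i, List.mem_finRange i, rfl⟩⟩
    · intro n
      show n ∈ dd (rawLns Vs Es) ↔ _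
      rw [mem_dd, rawLns, List.mem_append, List.mem_append, List.mem_map, List.mem_flatMap,
        List.mem_flatMap]
      constructor
      · rintro (⟨i, -, rfl⟩ | ⟨v, hv, h⟩ | ⟨e, he, h⟩)
        · exact ⟨.inl i, rfl⟩
        · obtain ⟨i, -, rfl⟩ := List.mem_map.1 h
          exact ⟨.inr (.inl (⟨v, hv⟩, i)), rfl⟩
        · obtain ⟨i, -, rfl⟩ := List.mem_map.1 h
          exact ⟨.inr (.inr (⟨e, he⟩, i)), rfl⟩
      · rintro ⟨i | ⟨v, i⟩ | ⟨e, i⟩, rfl⟩
        · exact Or.inl ⟨i, List.mem_finRange i, rfl⟩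
        · exact Or.inr (Or.inl ⟨v.1, v.2, List.mem_map.2 ⟨i, List.mem_finRange i, rfl⟩⟩)
        · exact Or.inr (Or.inr ⟨e.1, e.2, List.mem_map.2 ⟨i, List.mem_finRange i, rfl⟩⟩)
    · intro n
      have e1 : ∀ (v : NN' Vs) i, upP (kp ep (.inr (.inl (v, i)) : KK (NN' Vs) (EE' Es))) =
          gpt v.1 i := by
        intro v i
        simp only [kp, gpt, upP, Sum.map_map]
        cases gp i <;> rfl
      have e2 : ∀ (v : NN' Vs) i, upF (kf (.inr (.inl (v, i)) : KK (NN' Vs) (EE' Es))) =
          gln v.1 i := by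
        intro v i
        simp only [kf, gln, upF, Sum.map_map]
        cases gl i <;> rfl
      have e3 : ∀ (e : EE' Es) q b, upP (kp ep (.inr (.inr (e, (q, b))) : KK (NN' Vs) (EE' Es))) =
          ptT (if b then e.1.1 else e.1.2) := by
        intro e q b
        cases b
        · exact upP_pt _ _
        · exact upP_pt _ _
      show n ∈ dd (rawInc Vs Es) ↔ _
      rw [mem_dd, rawInc, List.mem_append, List.mem_append, List.mem_map, List.mem_flatMap,
        List.mem_flatMap]
      constructor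
      · rintro (⟨i, -, rfl⟩ | ⟨v, hv, h⟩ | ⟨e, he, h⟩)
        · exact ⟨.inl i, rfl⟩
        · obtain ⟨i, -, rfl⟩ := List.mem_map.1 h
          refine ⟨.inr (.inl (⟨v, hv⟩, i)), ?_⟩
          rw [e1, e2]
        · obtain ⟨q, -, h⟩ := List.mem_flatMap.1 h
          simp only [List.mem_cons, List.not_mem_nil, or_false] at h
          rcases h with rfl | rfl
          · refine ⟨.inr (.inr (⟨e, he⟩, (q, true))), ?_⟩
            rw [e3]
            rfl
          · refine ⟨.inr (.inr (⟨e, he⟩, (q, false))), ?_⟩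
            rw [e3]
            rfl
      · rintro ⟨i | ⟨v, i⟩ | ⟨e, ⟨q, b⟩⟩, rfl⟩
        · exact Or.inl ⟨i, List.mem_finRange i, rfl⟩
        · refine Or.inr (Or.inl ⟨v.1, v.2, List.mem_map.2 ⟨i, List.mem_finRange i, ?_⟩⟩)
          rw [e1, e2]
        · refine Or.inr (Or.inr ⟨e.1, e.2, List.mem_flatMap.2 ⟨q, List.mem_finRange q, ?_⟩⟩)
          rw [e3]
          cases b
          · exact List.mem_cons_of_mem _ (List.mem_cons_self ..)
          · exact List.mem_cons_self ..
  refine ⟨⟨nodup_dd _, nodup_dd _, nodup_dd _, ?_⟩, ?_⟩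
  · intro e he
    obtain ⟨k, rfl⟩ := (hL.inc e).1 he
    exact ⟨(hL.pts _).2 ⟨_, rfl⟩, (hL.lns _).2 ⟨_, rfl⟩⟩
  · rw [hL.independent_iff]
    constructor
    · intro h
      obtain ⟨c, hc⟩ := color_of_ind ep hloop' (by
        intro i j hij
        exact ⟨⟨_, hpal i j hij⟩, rfl⟩) h
      classical
      refine ⟨fun v => if hv : v ∈ Vs then c ⟨v, hv⟩ else 0, fun e he => ?_⟩
      have h1 := hc ⟨e, he⟩
      have key : ∀ (t : T) (h : ∀ v, t = .inr v → v ∈ Vs),
          (Sum.elim id (fun v => if hv : v ∈ Vs then c ⟨v, hv⟩ else 0) t : Fin 3) =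
            cc c (tN t h) := by
        intro t h
        cases t with
        | inl i => rfl
        | inr v =>
          show (if hv : v ∈ Vs then c ⟨v, hv⟩ else 0) = c ⟨v, h v rfl⟩
          rw [dif_pos (h v rfl)]
      rw [key e.1 fun v hv => hV e he v (Or.inl hv), key e.2 fun v hv => hV e he v (Or.inr hv)]
      exact h1
    · rintro ⟨c, hc⟩
      refine ind_of_color ep (fun v => c v.1) fun e => ?_
      have h1 := hc e.1 e.2
      have key : ∀ (t : T) (h : ∀ v, t = .inr v → v ∈ Vs),
          (Sum.elim id c t : Fin 3) = cc (fun v : NN' Vs => c v.1) (tN t h) := by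
        intro t h
        cases t <;> rfl
      rw [key e.1.1 fun v hv => hV e.1 e.2 v (Or.inl hv),
        key e.1.2 fun v hv => hV e.1 e.2 v (Or.inr hv)] at h1
      exact h1

end

end

end Pool.Agent.IncInd
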